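import Pool.Agent.H741R2.LJCore

/-!
# The scheduling instance
-/

namespace Pool.Agent.H741R2.LJ

/-- Keys of jobs: the kind and the index. -/
abbrev Ky := ℕ × ℕ

/-- The keys of the jobs. -/
def Key (m s : ℕ) (cg : ℕ → Bool) (x : Ky) : Prop :=
  (x.1 = 0 ∧ x.2 < 2 * m * s) ∨ (x.1 = 1 ∧ x.2 < 2 * m * s) ∨ (x.1 = 2 ∧ x.2 < s) ∨
    (x.1 = 3 ∧ x.2 < 2 * m * s ∧ cg x.2 = false) ∨ (x.1 = 4 ∧ x.2 < 2 * m * s)

/-- Release dates. -/
def rel (m s : ℕ) (x : Ky) : ℕ :=
  if x.1 = 0 then 20 * min x.2 (s1 m x.2) else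
  if x.1 = 1 then 20 * min x.2 (s2 m s x.2) else
  if x.1 = 2 then 20 * (2 * m * x.2) else
  if x.1 = 3 then 20 * x.2 + 18 else 20 * x.2 + 19

/-- Processing times. -/
def len (m : ℕ) (x : Ky) : ℕ :=
  if x.1 = 0 then (if Ev m x.2 then 10 else 13) else
  if x.1 = 1 then (if Ev m x.2 then 7 else 5) else
  if x.1 = 2 then 2 else 1

/-- Due dates. -/
def due (m s : ℕ) (x : Ky) : ℕ :=
  if x.1 = 0 then 20 * max x.2 (s1 m x.2) + 20 else
  if x.1 = 1 then 20 * max x.2 (s2 m s x.2) + 20 else
  if x.1 = 2 then 20 * (2 * m * x.2 + 2 * m) else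
  if x.1 = 3 then 20 * x.2 + 19 else 20 * x.2 + 20

/-- All jobs can be on time. -/
def Feas (m s : ℕ) (cg : ℕ → Bool) : Prop :=
  ∃ t : Ky → ℕ, (∀ x, Key m s cg x → rel m s x ≤ t x ∧ t x + len m x ≤ due m s x) ∧
    ∀ x y, Key m s cg x → Key m s cg y → x ≠ y → t x + len m x ≤ t y ∨ t y + len m y ≤ t x

/-- The formula is satisfiable. -/
def SatG (m s : ℕ) (cg : ℕ → Bool) : Prop :=
  ∃ τ : ℕ → Bool, ∀ r < s, ∃ i < m, (τ i = true ∧ cg (2 * m * r + i) = true) ∨
    (τ i = false ∧ cg (2 * m * r + (2 * m - 1 - i)) = true)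

section

variable {m s : ℕ} {cg : ℕ → Bool}

theorem key0 {g : ℕ} (h : g < 2 * m * s) : Key m s cg (0, g) := Or.inl ⟨rfl, h⟩

theorem key1 {g : ℕ} (h : g < 2 * m * s) : Key m s cg (1, g) := Or.inr (Or.inl ⟨rfl, h⟩)

theorem key2 {r : ℕ} (h : r < s) : Key m s cg (2, r) := Or.inr (Or.inr (Or.inl ⟨rfl, h⟩))

theorem key3 {g : ℕ} (h : g < 2 * m * s) (h' : cg g = false) : Key m s cg (3, g) :=
  Or.inr (Or.inr (Or.inr (Or.inl ⟨rfl, h, h'⟩)))

theorem key4 {g : ℕ} (h : g < 2 * m * s) : Key m s cg (4, g) :=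
  Or.inr (Or.inr (Or.inr (Or.inr ⟨rfl, h⟩)))

theorem len0 (g : ℕ) : len m (0, g) = if Ev m g then 10 else 13 := by simp [len]

theorem len1 (g : ℕ) : len m (1, g) = if Ev m g then 7 else 5 := by simp [len]

theorem len2 (g : ℕ) : len m (2, g) = 2 := by simp [len]

theorem len3 (g : ℕ) : len m (3, g) = 1 := by simp [len]

theorem len4 (g : ℕ) : len m (4, g) = 1 := by simp [len]

theorem ne_key {a b g h : ℕ} (hab : a ≠ b) : ((a, g) : Ky) ≠ (b, h) := fun e => hab (congrArg Prod.fst e)

theorem ne_key' {a g h : ℕ} (hab : g ≠ h) : ((a, g) : Ky) ≠ (a, h) := fun e => hab (congrArg Prod.snd e)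

theorem sat_of_feas (hm : 0 < m) (h : Feas m s cg) : SatG m s cg := by
  classical
  obtain ⟨t, hw, hd⟩ := h
  have hl0 : ∀ g, 10 ≤ len m (0, g) := fun g => by rw [len0]; split_ifs <;> omega
  have hl1 : ∀ g, 5 ≤ len m (1, g) := fun g => by rw [len1]; split_ifs <;> omega
  have hsep : ∀ g < 2 * m * s, t (4, g) = 20 * g + 19 := by
    intro g hg
    have := hw (4, g) (key4 hg)
    simp only [rel, len, due] at this
    norm_num at this
    omega
  have hext : ∀ g < 2 * m * s, cg g = false → t (3, g) = 20 * g + 18 := by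
    intro g hg hc
    have := hw (3, g) (key3 hg hc)
    simp only [rel, len, due] at this
    norm_num at this
    omega
  have hgap : ∀ x, Key m s cg x → x.1 ≤ 2 → 1 ≤ len m x → t x + len m x ≤ 20 * (2 * m * s) →
      t x / 20 < 2 * m * s ∧ t x + len m x ≤ 20 * (t x / 20) + 19 ∧
      (cg (t x / 20) = false → t x + len m x ≤ 20 * (t x / 20) + 18) := by
    intro x hx hx2 hlx htx
    have h1 : t x / 20 < 2 * m * s := by omega
    have h2 : x ≠ (4, t x / 20) := by
      intro e
      have := congrArg Prod.fst e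
      simp only at this
      omega
    have h3 := hd x (4, t x / 20) hx (key4 h1) h2
    rw [hsep _ h1, len4] at h3
    refine ⟨h1, by omega, fun hc => ?_⟩
    have h2' : x ≠ (3, t x / 20) := by
      intro e
      have := congrArg Prod.fst e
      simp only at this
      omega
    have h4 := hd x (3, t x / 20) hx (key3 h1 hc) h2'
    rw [hext _ h1 hc, len3] at h4
    omega
  -- class 1
  have hw0 : ∀ g < 2 * m * s, min g (s1 m g) ≤ t (0, g) / 20 ∧ t (0, g) / 20 ≤ max g (s1 m g) ∧
      t (0, g) / 20 < 2 * m * s ∧ t (0, g) + len m (0, g) ≤ 20 * (t (0, g) / 20) + 19 ∧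
      (cg (t (0, g) / 20) = false → t (0, g) + len m (0, g) ≤ 20 * (t (0, g) / 20) + 18) := by
    intro g hg
    have h1 := hw (0, g) (key0 hg)
    have h2 : rel m s (0, g) = 20 * min g (s1 m g) := by simp [rel]
    have h3 : due m s (0, g) = 20 * max g (s1 m g) + 20 := by simp [due]
    rw [h2, h3] at h1
    have h4 := s1_lt hm hg
    have h5 := hl0 g
    have h6 := hgap (0, g) (key0 hg) (by norm_num) (by omega) (by omega)
    exact ⟨by omega, by omega, h6⟩
  have hinj0 : ∀ g < 2 * m * s, ∀ h < 2 * m * s, t (0, g) / 20 = t (0, h) / 20 → g = h := by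
    intro g hg h hh he
    by_contra hne
    have h1 := hd (0, g) (0, h) (key0 hg) (key0 hh) (ne_key' hne)
    have h2 := hw0 g hg
    have h3 := hw0 h hh
    have h4 := hl0 g
    have h5 := hl0 h
    omega
  have hlt0 : ∀ g < 2 * m * s, t (0, g) / 20 < 2 * m * s := fun g hg => (hw0 g hg).2.2.1
  have hsurj0 := surj_of_inj hlt0 hinj0
  -- class 2
  have hw1 : ∀ g < 2 * m * s, min g (s2 m s g) ≤ t (1, g) / 20 ∧
      t (1, g) / 20 ≤ max g (s2 m s g) ∧
      t (1, g) / 20 < 2 * m * s ∧ t (1, g) + len m (1, g) ≤ 20 * (t (1, g) / 20) + 19 ∧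
      (cg (t (1, g) / 20) = false → t (1, g) + len m (1, g) ≤ 20 * (t (1, g) / 20) + 18) := by
    intro g hg
    have h1 := hw (1, g) (key1 hg)
    have h2 : rel m s (1, g) = 20 * min g (s2 m s g) := by simp [rel]
    have h3 : due m s (1, g) = 20 * max g (s2 m s g) + 20 := by simp [due]
    rw [h2, h3] at h1
    have h4 := s2_lt hm hg
    have h5 := hl1 g
    have h6 := hgap (1, g) (key1 hg) (by norm_num) (by omega) (by omega)
    exact ⟨by omega, by omega, h6⟩
  have hinj1 : ∀ g < 2 * m * s, ∀ h < 2 * m * s, t (1, g) / 20 = t (1, h) / 20 → g = h := by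
    intro g hg h hh he
    by_contra hne
    obtain ⟨f, hf, hfe⟩ := hsurj0 (t (1, g) / 20) (hw1 g hg).2.2.1
    have h1 := hd (1, g) (1, h) (key1 hg) (key1 hh) (ne_key' hne)
    have h2 := hd (0, f) (1, g) (key0 hf) (key1 hg) (ne_key (by norm_num))
    have h3 := hd (0, f) (1, h) (key0 hf) (key1 hh) (ne_key (by norm_num))
    have h4 := hw1 g hg
    have h5 := hw1 h hh
    have h6 := hw0 f hf
    have h7 := hl0 f
    have h8 := hl1 g
    have h9 := hl1 h
    omega
  have hlt1 : ∀ g < 2 * m * s, t (1, g) / 20 < 2 * m * s := fun g hg => (hw1 g hg).2.2.1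
  have hsurj1 := surj_of_inj hlt1 hinj1
  set γ : ℕ → ℕ := fun g => t (0, g) / 20 with hγ
  set γ' : ℕ → ℕ := fun g => t (1, g) / 20 with hγ'
  have hnest0 := nested (σ := s1 m) (γ := γ) hlt0 (fun g _ h h1 h2 => s1_nested hm h1 h2)
    (fun g hg => ⟨(hw0 g hg).1, (hw0 g hg).2.1⟩) hinj0
  have hnest1 := nested (σ := s2 m s) (γ := γ') hlt1 (fun g hg h h1 h2 => s2_nested hm hg h1 h2)
    (fun g hg => ⟨(hw1 g hg).1, (hw1 g hg).2.1⟩) hinj1
  have hswap0 : ∀ h < 2 * m * s, (Bit (2 * m * s) γ (Ev m) (s1 m h) ↔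
      ¬ Bit (2 * m * s) γ (Ev m) h) := fun h hh =>
    bit_swap (fun g hg => s1_lt hm hg) (fun g _ => s1_s1 hm) (fun g _ => ev_s1 hm) hlt0 hinj0
      hnest0 hh
  have hswap1 : ∀ h < 2 * m * s, (Bit (2 * m * s) γ' (Ev m) (s2 m s h) ↔
      ¬ Bit (2 * m * s) γ' (Ev m) h) := fun h hh =>
    bit_swap (fun g hg => s2_lt hm hg) (fun g hg => s2_s2 hm hg) (fun g hg => ev_s2 hm hg) hlt1
      hinj1 hnest1 hh
  have hbits : ∀ h < 2 * m * s, (Bit (2 * m * s) γ (Ev m) h ↔ Bit (2 * m * s) γ' (Ev m) h) := by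
    intro h hh
    refine bit_eq hlt0 hinj0 hlt1 hinj1 ?_ hh
    rintro a ha ⟨g, hg, hga, hge⟩
    obtain ⟨f, hf, hfa⟩ := hsurj0 a ha
    refine ⟨f, hf, hfa, ?_⟩
    by_contra hne
    have h1 := hd (0, f) (1, g) (key0 hf) (key1 hg) (ne_key (by norm_num))
    have h2 : len m (0, f) = 13 := by rw [len0, if_neg hne]
    have h3 : len m (1, g) = 7 := by rw [len1, if_pos hge]
    have h4 := hw0 f hf
    have h5 := hw1 g hg
    simp only [hγ'] at hga
    omega
  -- the chain
  have hchain : ∀ i < m, ∀ r < s, (Bit (2 * m * s) γ (Ev m) (2 * m * r + i) ↔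
      Bit (2 * m * s) γ (Ev m) i) := by
    intro i hi r
    induction r with
    | zero => intro _; rw [Nat.mul_zero, Nat.zero_add]
    | succ r ih =>
      intro hr
      have h1 : 2 * m * r + 2 * m + 2 * m ≤ 2 * m * s := by
        have := Nat.mul_le_mul_left (2 * m) (show r + 2 ≤ s by omega)
        rw [Nat.mul_add] at this
        omega
      rw [← ih (by omega)]
      have h2 : s1 m (2 * m * r + i) = m + (2 * m * r + (m - 1 - i)) := by
        rw [s1_eq (by omega)]
        omega
      have h3 : s2 m s (m + (2 * m * r + (m - 1 - i))) = 2 * m * (r + 1) + i := by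
        rw [s2_inner (by omega) (by omega), Nat.mul_succ]
        omega
      rw [← h3, hbits _ (by rw [h3, Nat.mul_succ]; omega), hswap1 _ (by omega),
        ← hbits _ (by omega), ← h2, hswap0 _ (by omega), not_not]
  refine ⟨fun i => decide (Bit (2 * m * s) γ (Ev m) i), fun r hr => ?_⟩
  have hk := hw (2, r) (key2 hr)
  have hk1 : rel m s (2, r) = 20 * (2 * m * r) := by simp [rel]
  have hk2 : due m s (2, r) = 20 * (2 * m * r + 2 * m) := by simp [due]
  rw [hk1, hk2, len2] at hk
  have hr1 : 2 * m * r + 2 * m ≤ 2 * m * s := by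
    have := Nat.mul_le_mul_left (2 * m) (show r + 1 ≤ s by omega)
    rw [Nat.mul_add, Nat.mul_one] at this
    exact this
  have hkg := hgap (2, r) (key2 hr) le_rfl (by rw [len2]; omega) (by rw [len2]; omega)
  rw [len2] at hkg
  set g := t (2, r) / 20 with hg
  have hg1 : 2 * m * r ≤ g := by omega
  have hg2 : g < 2 * m * r + 2 * m := by omega
  have hbit : Bit (2 * m * s) γ (Ev m) g ∧ cg g = true := by
    by_cases hb : Bit (2 * m * s) γ (Ev m) g
    · refine ⟨hb, ?_⟩
      by_contra hc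
      rw [Bool.not_eq_true] at hc
      obtain ⟨b', hb'1, hb'2, hb'3⟩ := (hbits g hkg.1).1 hb
      obtain ⟨b, hb1, hb2, hb3⟩ := hb
      simp only [hγ, hγ'] at hb2 hb'2
      have h1 := hd (0, b) (1, b') (key0 hb1) (key1 hb'1) (ne_key (by norm_num))
      have h2 := hd (0, b) (2, r) (key0 hb1) (key2 hr) (ne_key (by norm_num))
      have h3 := hd (1, b') (2, r) (key1 hb'1) (key2 hr) (ne_key (by norm_num))
      have h4 : len m (0, b) = 10 := by rw [len0, if_pos hb3]
      have h5 : len m (1, b') = 7 := by rw [len1, if_pos hb'3]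
      have h6 := (hw0 b hb1).2.2.2.2 (by rw [hb2]; exact hc)
      have h7 := (hw1 b' hb'1).2.2.2.2 (by rw [hb'2]; exact hc)
      have h8 := hkg.2.2 hc
      rw [len2] at h2 h3
      omega
    · exfalso
      have hb' : ¬ Bit (2 * m * s) γ' (Ev m) g := fun h => hb ((hbits g hkg.1).2 h)
      obtain ⟨b, hb1, hb2⟩ := hsurj0 g hkg.1
      obtain ⟨b', hb'1, hb'2⟩ := hsurj1 g hkg.1
      have hb3 : ¬ Ev m b := fun h => hb ⟨b, hb1, hb2, h⟩
      have hb'3 : ¬ Ev m b' := fun h => hb' ⟨b', hb'1, hb'2, h⟩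
      have h1 := hd (0, b) (1, b') (key0 hb1) (key1 hb'1) (ne_key (by norm_num))
      have h2 := hd (0, b) (2, r) (key0 hb1) (key2 hr) (ne_key (by norm_num))
      have h3 := hd (1, b') (2, r) (key1 hb'1) (key2 hr) (ne_key (by norm_num))
      have h4 : len m (0, b) = 13 := by rw [len0, if_neg hb3]
      have h5 : len m (1, b') = 5 := by rw [len1, if_neg hb'3]
      have h6 := (hw0 b hb1).2.2.2.1
      have h7 := (hw1 b' hb'1).2.2.2.1
      have h8 := hkg.2.1
      rw [len2] at h2 h3
      omega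
  by_cases ha : g < 2 * m * r + m
  · refine ⟨g - 2 * m * r, by omega, Or.inl ⟨?_, ?_⟩⟩
    · rw [decide_eq_true_iff, ← hchain _ (by omega) r hr,
        show 2 * m * r + (g - 2 * m * r) = g by omega]
      exact hbit.1
    · rw [show 2 * m * r + (g - 2 * m * r) = g by omega]
      exact hbit.2
  · have e : g = s1 m (2 * m * r + (2 * m - 1 - (g - 2 * m * r))) := by
      rw [s1_eq (by omega)]
      omega
    refine ⟨2 * m - 1 - (g - 2 * m * r), by omega, Or.inr ⟨?_, ?_⟩⟩
    · rw [decide_eq_false_iff_not, ← hchain _ (by omega) r hr, ← hswap0 _ (by omega), ← e]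
      exact hbit.1
    · rw [show 2 * m * r + (2 * m - 1 - (2 * m - 1 - (g - 2 * m * r))) = g by omega]
      exact hbit.2

/-! ## The schedule of a satisfying assignment -/

/-- The start times. -/
def st (m s : ℕ) (τ : ℕ → Bool) (κ : ℕ → ℕ) (x : Ky) : ℕ :=
  if x.1 = 0 then 20 * (if τ (vr m x.2) = true then x.2 else s1 m x.2) else
  if x.1 = 1 then 20 * (if τ (vr m x.2) = true then x.2 else s2 m s x.2) +
    (if Ev m x.2 then 10 else 13) else
  if x.1 = 2 then 20 * κ x.2 + 17 else
  if x.1 = 3 then 20 * x.2 + 18 else 20 * x.2 + 19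

theorem feas_of_sat (hm : 0 < m) (h : SatG m s cg) : Feas m s cg := by
  classical
  obtain ⟨τ, hτ⟩ := h
  have hκ : ∀ r, ∃ g, r < s → 2 * m * r ≤ g ∧ g < 2 * m * r + 2 * m ∧ cg g = true ∧
      (Ev m g ↔ τ (vr m g) = true) := by
    intro r
    by_cases hr : r < s
    · obtain ⟨i, hi, h | h⟩ := hτ r hr
      · refine ⟨2 * m * r + i, fun _ => ⟨by omega, by omega, h.2, ?_⟩⟩
        rw [ev_eq (by omega), vr_eq (by omega), if_pos hi, h.1]
        simp [hi]
      · refine ⟨2 * m * r + (2 * m - 1 - i), fun _ => ⟨by omega, by omega, h.2, ?_⟩⟩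
        rw [ev_eq (by omega), vr_eq (by omega), if_neg (by omega),
          show 2 * m - 1 - (2 * m - 1 - i) = i by omega, h.1]
        simp
        omega
    · exact ⟨0, fun h => absurd h hr⟩
  choose κ hκ using hκ
  set γ : ℕ → ℕ := fun g => if τ (vr m g) = true then g else s1 m g with hγ
  set γ' : ℕ → ℕ := fun g => if τ (vr m g) = true then g else s2 m s g with hγ'
  have hv : ∀ g, vr m (γ g) = vr m g := by
    intro g
    simp only [hγ]
    split_ifs
    · rfl
    · exact vr_s1 hm
  have hv' : ∀ g < 2 * m * s, vr m (γ' g) = vr m g := by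
    intro g hg
    simp only [hγ']
    split_ifs
    · rfl
    · exact vr_s2 hm hg
  have hE : ∀ g, (Ev m g ↔ (Ev m (γ g) ↔ τ (vr m (γ g)) = true)) := by
    intro g
    rw [hv]
    by_cases h : τ (vr m g) = true
    · simp only [hγ, h, if_true, iff_true]
    · rw [Bool.not_eq_true] at h
      simp only [hγ, h, Bool.false_eq_true, if_false, iff_false, ev_s1 hm, not_not]
  have hE' : ∀ g < 2 * m * s, (Ev m g ↔ (Ev m (γ' g) ↔ τ (vr m (γ' g)) = true)) := by
    intro g hg
    rw [hv' g hg]
    by_cases h : τ (vr m g) = true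
    · simp only [hγ', h, if_true, iff_true]
    · rw [Bool.not_eq_true] at h
      simp only [hγ', h, Bool.false_eq_true, if_false, iff_false, ev_s2 hm hg, not_not]
  have hinj : ∀ g h, γ g = γ h → g = h := by
    intro g h he
    have h1 := congrArg (vr m) he
    rw [hv, hv] at h1
    simp only [hγ, h1] at he
    split_ifs at he
    · exact he
    · have := congrArg (s1 m) he
      rwa [s1_s1 hm, s1_s1 hm] at this
  have hinj' : ∀ g < 2 * m * s, ∀ h < 2 * m * s, γ' g = γ' h → g = h := by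
    intro g hg h hh he
    have h1 := congrArg (vr m) he
    rw [hv' g hg, hv' h hh] at h1
    simp only [hγ', h1] at he
    split_ifs at he
    · exact he
    · have := congrArg (s2 m s) he
      rwa [s2_s2 hm hg, s2_s2 hm hh] at this
  have hw : ∀ g, min g (s1 m g) ≤ γ g ∧ γ g ≤ max g (s1 m g) := by
    intro g
    simp only [hγ]
    split_ifs <;> omega
  have hw' : ∀ g, min g (s2 m s g) ≤ γ' g ∧ γ' g ≤ max g (s2 m s g) := by
    intro g
    simp only [hγ']
    split_ifs <;> omega
  have t0 : ∀ g, st m s τ κ (0, g) = 20 * γ g := fun g => by simp [st, hγ]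
  have t1 : ∀ g, st m s τ κ (1, g) = 20 * γ' g + (if Ev m g then 10 else 13) := fun g => by
    simp [st, hγ']
  have t2 : ∀ r, st m s τ κ (2, r) = 20 * κ r + 17 := fun g => by simp [st]
  have t3 : ∀ r, st m s τ κ (3, r) = 20 * r + 18 := fun g => by simp [st]
  have t4 : ∀ r, st m s τ κ (4, r) = 20 * r + 19 := fun g => by simp [st]
  refine ⟨st m s τ κ, ?_, ?_⟩
  · rintro ⟨a, g⟩ hx
    rcases hx with ⟨h1, h2⟩ | ⟨h1, h2⟩ | ⟨h1, h2⟩ | ⟨h1, h2, h3⟩ | ⟨h1, h2⟩ <;> simp only at h1 h2 <;>
      subst h1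
    · rw [t0, len0]
      have e1 : rel m s (0, g) = 20 * min g (s1 m g) := by simp [rel]
      have e2 : due m s (0, g) = 20 * max g (s1 m g) + 20 := by simp [due]
      rw [e1, e2]
      have := hw g
      split_ifs <;> omega
    · rw [t1, len1]
      have e1 : rel m s (1, g) = 20 * min g (s2 m s g) := by simp [rel]
      have e2 : due m s (1, g) = 20 * max g (s2 m s g) + 20 := by simp [due]
      rw [e1, e2]
      have := hw' g
      split_ifs <;> omega
    · rw [t2, len2]
      have e1 : rel m s (2, g) = 20 * (2 * m * g) := by simp [rel]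
      have e2 : due m s (2, g) = 20 * (2 * m * g + 2 * m) := by simp [due]
      rw [e1, e2]
      have := hκ g h2
      omega
    · rw [t3, len3]
      simp [rel, due]
    · rw [t4, len4]
      simp [rel, due]
  · have main : ∀ x y, Key m s cg x → Key m s cg y → x ≠ y → x.1 ≤ y.1 →
        st m s τ κ x + len m x ≤ st m s τ κ y ∨ st m s τ κ y + len m y ≤ st m s τ κ x := by
      rintro ⟨a, g⟩ ⟨b, h⟩ hx hy hne hab
      rcases hx with ⟨h1, h2⟩ | ⟨h1, h2⟩ | ⟨h1, h2⟩ | ⟨h1, h2, h3⟩ | ⟨h1, h2⟩ <;>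
        simp only at h1 h2 <;> subst h1 <;>
        rcases hy with ⟨h4, h5⟩ | ⟨h4, h5⟩ | ⟨h4, h5⟩ | ⟨h4, h5, h6⟩ | ⟨h4, h5⟩ <;>
        simp only at h4 h5 <;> subst h4 <;> simp only at hab <;>
        first | (exfalso; omega) | skip
      · -- 0 0
        rw [t0, t0, len0, len0]
        have h7 : γ g ≠ γ h := fun e => hne (by rw [hinj g h e])
        split_ifs <;> omega
      · -- 0 1
        rw [t0, t1, len0, len1]
        have h7 : γ g = γ' h → (Ev m g ↔ Ev m h) := by
          intro e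
          rw [hE g, hE' h h5, e]
        by_cases e : γ g = γ' h
        · have h8 := h7 e
          by_cases h9 : Ev m g
          · rw [if_pos h9, if_pos (h8.1 h9)]
            omega
          · rw [if_neg h9, if_neg (fun h => h9 (h8.2 h))]
            omega
        · split_ifs <;> omega
      · -- 0 2
        rw [t0, t2, len0, len2]
        split_ifs <;> omega
      · rw [t0, t3, len0, len3]
        split_ifs <;> omega
      · rw [t0, t4, len0, len4]
        split_ifs <;> omega
      · -- 1 1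
        rw [t1, t1, len1, len1]
        have h7 : γ' g ≠ γ' h := fun e => hne (by rw [hinj' g h2 h h5 e])
        split_ifs <;> omega
      · -- 1 2
        rw [t1, t2, len1, len2]
        by_cases e : γ' g = κ h
        · have h8 : Ev m g := by
            rw [hE' g h2, e]
            exact (hκ h h5).2.2.2
          rw [if_pos h8, if_pos h8]
          omega
        · split_ifs <;> omega
      · rw [t1, t3, len1, len3]
        split_ifs <;> omega
      · rw [t1, t4, len1, len4]
        split_ifs <;> omega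
      · -- 2 2
        rw [t2, t2, len2, len2]
        have h7 : κ g ≠ κ h := by
          intro e
          have h8 := hκ g h2
          have h9 := hκ h h5
          apply hne
          have : 2 * m * g + (κ g - 2 * m * g) = 2 * m * h + (κ h - 2 * m * h) := by omega
          rw [(same_block (by omega) (by omega) this).1]
        omega
      · -- 2 3
        rw [t2, t3, len2, len3]
        have h7 : κ g ≠ h := by
          intro e
          have h8 := (hκ g h2).2.2.1
          rw [e, h6] at h8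
          exact absurd h8 (by decide)
        omega
      · rw [t2, t4, len2, len4]
        omega
      · rw [t3, t3, len3, len3]
        have h7 : g ≠ h := fun e => hne (by rw [e])
        omega
      · rw [t3, t4, len3, len4]
        omega
      · rw [t4, t4, len4, len4]
        have h7 : g ≠ h := fun e => hne (by rw [e])
        omega
    intro x y hx hy hne
    rcases le_total x.1 y.1 with h | h
    · exact main x y hx hy hne h
    · exact (main y x hy hx (Ne.symm hne) h).symm

theorem feas_iff (hm : 0 < m) : Feas m s cg ↔ SatG m s cg :=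
  ⟨sat_of_feas hm, feas_of_sat hm⟩

end

end Pool.Agent.H741R2.LJ
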