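import Pool.Agent.H741R2.LJRed

/-!
# The reduction is computable in polynomial time
-/

namespace Pool.Agent.H741R2.LJ

open Pool.Agent.NPC

attribute [local fun_prop] Poly.index

theorem vars_poly : Poly vars := by
  unfold vars
  exact Poly.flatMap (F := fun _ (c : Cl) => [c.1.2, c.2.1.2, c.2.2.2]) Poly.id
    (Poly.cons (Poly.snd (Poly.fst (Poly.snd Poly.id))) (Poly.cons
      (Poly.snd (Poly.fst (Poly.snd (Poly.snd Poly.id))))
      (Poly.cons (Poly.snd (Poly.snd (Poly.snd (Poly.snd Poly.id)))) (NPC.Poly.const []))))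

attribute [local fun_prop] vars_poly

theorem len_u : UPoly (fun φ : List Cl => φ.length) := UPoly.length Poly.id

theorem mm_u : UPoly mm := UPoly.add (UPoly.mul (UPoly.const 3) len_u) (UPoly.const 1)

theorem mm_poly : Poly mm := mm_u.toPoly

attribute [local fun_prop] mm_poly

section

variable {α : Type} [TEnc α]

theorem ev_poly {m g : α → ℕ} (hm : Poly m) (hg : Poly g) :
    Poly (fun a => decide (Ev (m a) (g a))) := by
  have : Poly (fun a => decide (g a % (2 * m a) < m a)) := by fun_prop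
  exact this

theorem s1_poly {m g : α → ℕ} (hm : Poly m) (hg : Poly g) : Poly (fun a => s1 (m a) (g a)) := by
  unfold s1
  fun_prop

theorem s2_poly {m s g : α → ℕ} (hm : Poly m) (hs : Poly s) (hg : Poly g) :
    Poly (fun a => s2 (m a) (s a) (g a)) := by
  unfold s2
  refine Poly.ite (p := fun a => m a ≤ g a ∧ g a + m a < 2 * m a * s a) ?_ ?_ ?_ <;> fun_prop

theorem lp_poly {φ : α → List Cl} {l : α → Lit ℕ} (hφ : Poly φ) (hl : Poly l) :
    Poly (fun a => lp (φ a) (l a)) := by
  unfold lp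
  refine Poly.ite (p := fun a => (l a).1 = true) ?_ ?_ ?_ <;> fun_prop

theorem cg_poly {φ : α → List Cl} {g : α → ℕ} (hφ : Poly φ) (hg : Poly g) :
    Poly (fun a => cg (φ a) (g a)) := by
  have hc : Poly (fun a => (φ a).getD (g a / (2 * mm (φ a))) ((true, 0), (true, 0), (true, 0))) := by
    fun_prop
  have hq : Poly (fun a => g a % (2 * mm (φ a))) := by fun_prop
  unfold cg
  exact Poly.or (Poly.decide_eq hq (lp_poly hφ (Poly.fst hc))) (Poly.or
    (Poly.decide_eq hq (lp_poly hφ (Poly.fst (Poly.snd hc))))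
    (Poly.decide_eq hq (lp_poly hφ (Poly.snd (Poly.snd hc)))))

theorem rel_poly {m s : α → ℕ} {x : α → Ky} (hm : Poly m) (hs : Poly s) (hx : Poly x) :
    Poly (fun a => rel (m a) (s a) (x a)) := by
  have h1 := s1_poly hm (Poly.snd hx)
  have h2 := s2_poly hm hs (Poly.snd hx)
  unfold rel
  refine Poly.ite (p := fun a => (x a).1 = 0) ?_ ?_ (Poly.ite (p := fun a => (x a).1 = 1) ?_ ?_
    (Poly.ite (p := fun a => (x a).1 = 2) ?_ ?_ (Poly.ite (p := fun a => (x a).1 = 3) ?_ ?_ ?_)))
    <;> fun_prop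

theorem due_poly {m s : α → ℕ} {x : α → Ky} (hm : Poly m) (hs : Poly s) (hx : Poly x) :
    Poly (fun a => due (m a) (s a) (x a)) := by
  have h1 := s1_poly hm (Poly.snd hx)
  have h2 := s2_poly hm hs (Poly.snd hx)
  unfold due
  refine Poly.ite (p := fun a => (x a).1 = 0) ?_ ?_ (Poly.ite (p := fun a => (x a).1 = 1) ?_ ?_
    (Poly.ite (p := fun a => (x a).1 = 2) ?_ ?_ (Poly.ite (p := fun a => (x a).1 = 3) ?_ ?_ ?_)))
    <;> fun_prop

theorem lenf_poly {m : α → ℕ} {x : α → Ky} (hm : Poly m) (hx : Poly x) :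
    Poly (fun a => len (m a) (x a)) := by
  have h1 := ev_poly hm (Poly.snd hx)
  unfold len
  refine Poly.ite (p := fun a => (x a).1 = 0) ?_ (Poly.ite (p := fun a => Ev (m a) (x a).2) ?_ ?_ ?_)
    (Poly.ite (p := fun a => (x a).1 = 1) ?_ (Poly.ite (p := fun a => Ev (m a) (x a).2) ?_ ?_ ?_)
    (Poly.ite (p := fun a => (x a).1 = 2) ?_ ?_ ?_)) <;> first | exact h1 | fun_prop

end

theorem keys_poly : Poly keys := by
  have hG : UPoly (fun φ : List Cl => 2 * mm φ * φ.length) :=
    UPoly.mul (UPoly.mul (UPoly.const 2) mm_u) len_u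
  have hk : ∀ k : ℕ, Poly (fun p : List Cl × ℕ => ((k, p.2) : Ky)) := fun k =>
    Poly.pair (NPC.Poly.const k) (Poly.snd Poly.id)
  unfold keys
  refine Poly.append (NPC.Poly.map (F := fun _ g => ((0, g) : Ky)) hG.range (hk 0)) (Poly.append
    (NPC.Poly.map (F := fun _ g => ((1, g) : Ky)) hG.range (hk 1)) (Poly.append
    (NPC.Poly.map (F := fun _ g => ((2, g) : Ky)) len_u.range (hk 2)) (Poly.append
    (NPC.Poly.map (F := fun _ g => ((3, g) : Ky)) ?_ (hk 3))
    (NPC.Poly.map (F := fun _ g => ((4, g) : Ky)) hG.range (hk 4)))))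
  exact Poly.filter (p := fun (φ : List Cl) g => !cg φ g) hG.range
    (Poly.not (cg_poly (Poly.fst Poly.id) (Poly.snd Poly.id)))

theorem inst_poly : Poly inst := by
  have h1 : Poly (fun x : List Cl × Ky => mm x.1) := by fun_prop
  have h2 : Poly (fun x : List Cl × Ky => x.1.length) := by fun_prop
  have h3 : Poly (fun x : List Cl × Ky => x.2) := Poly.snd Poly.id
  unfold inst
  exact Poly.pair (NPC.Poly.map (F := fun φ (x : Ky) => (rel (mm φ) φ.length x, len (mm φ) x,
    (due (mm φ) φ.length x : ℤ))) keys_poly (Poly.pair (rel_poly h1 h2 h3)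
    (Poly.pair (lenf_poly h1 h3) (Poly.natCast_int (due_poly h1 h2 h3))))) (NPC.Poly.const 0)

theorem instW_poly : Poly instW := by
  have h1 : Poly (fun x : List Cl × Ky => mm x.1) := by fun_prop
  have h2 : Poly (fun x : List Cl × Ky => x.1.length) := by fun_prop
  have h3 : Poly (fun x : List Cl × Ky => x.2) := Poly.snd Poly.id
  unfold instW
  exact Poly.pair (NPC.Poly.map (F := fun φ (x : Ky) => (rel (mm φ) φ.length x, len (mm φ) x,
    (due (mm φ) φ.length x : ℤ), 1)) keys_poly (Poly.pair (rel_poly h1 h2 h3)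
    (Poly.pair (lenf_poly h1 h3) (Poly.pair (Poly.natCast_int (due_poly h1 h2 h3))
    (NPC.Poly.const 1))))) (NPC.Poly.const 0)

theorem hardI_late {c : ℕ} (hc : 13 ≤ c) : HardI (LateJobs c) :=
  hardI_SAT3.trans inst_poly (inst_correct hc)

theorem hardI_wlate {c : ℕ} (hc : 13 ≤ c) : HardI (WeightedLateJobs c) :=
  hardI_SAT3.trans instW_poly (instW_correct hc)

end Pool.Agent.H741R2.LJ
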