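import Pool.Agent.NPC.Defs

/-!
# Induced subgraphs of De Bruijn graphs: definitions
-/

namespace Pool.Agent.H741R2

/-- `L` is an `(α, k)`-labelling of the digraph with vertex set `V` and arc relation `Adj`: it is
injective, and there is an arc from `u` to `v` if and only if the last `k - 1` letters of `L u` are
the first `k - 1` letters of `L v`. -/
structure IsLabeling {V : Type} (Adj : V → V → Prop) (α k : ℕ) (L : V → Fin k → Fin α) : Prop where
  /-- different vertices have different labels -/
  inj : Function.Injective L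
  /-- arcs are determined by the labels -/
  arc : ∀ u v, Adj u v ↔ ∀ i j : Fin k, (j : ℕ) = (i : ℕ) + 1 → L u j = L v i

/-- The class `𝓛_k^α` of the digraphs that admit an `(α, k)`-labelling. -/
def InClass (α k : ℕ) {V : Type} (Adj : V → V → Prop) : Prop :=
  ∃ L : V → Fin k → Fin α, IsLabeling Adj α k L

/-- The class `𝓛_∞^α`: the union of the classes `𝓛_k^α`, `k ≥ 1`. -/
def InClassInf (α : ℕ) {V : Type} (Adj : V → V → Prop) : Prop := ∃ k, 1 ≤ k ∧ InClass α k Adj

/-- A pair of lists is the description of a digraph: the list of its vertices and the list of its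
arcs, without repetitions, all arcs joining vertices. -/
def IsDigraph (I : List ℕ × List (ℕ × ℕ)) : Prop :=
  I.1.Nodup ∧ I.2.Nodup ∧ ∀ a ∈ I.2, a.1 ∈ I.1 ∧ a.2 ∈ I.1

/-- The arc relation of the digraph described by `I`, on its set of vertices. -/
def arcRel (I : List ℕ × List (ℕ × ℕ)) (u v : {v : ℕ // v ∈ I.1}) : Prop := (u.1, v.1) ∈ I.2

/-- The membership problem for `𝓛_∞^α`: does `I` describe a digraph that has an
`(α, k)`-labelling for some `k ≥ 1`? -/
def Linf (α : ℕ) (I : List ℕ × List (ℕ × ℕ)) : Prop := IsDigraph I ∧ InClassInf α (arcRel I)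

end Pool.Agent.H741R2
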