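import Pool.Agent.H741R2.DBLine

/-!
# The digraph of the reduction
-/

namespace Pool.Agent.H741R2

/-- Names of the vertices: kind, height, vertex of the graph, part of the edge number. -/
abbrev Nd := ℕ × ℕ × ℕ × ℕ

/-- The leg from the root of `x` to the edge with number `e`. -/
def leg (g x e : ℕ) : List (Nd × Nd) :=
  (List.range (g + 4)).map (fun c => ((0, c, x, e % 2 ^ (c - 1)), (0, c + 1, x, e % 2 ^ c)))

/-- The side branch of the edge with number `e` at its end `x`. -/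
def side (g x e : ℕ) : List (Nd × Nd) :=
  [((1, g, 0, e), (1, g + 1, x, e)), ((1, g + 1, x, e), (1, g + 2, x, e)),
    ((1, g + 2, x, e), (0, g + 3, x, e % 2 ^ (g + 2)))]

/-- The gadget of an edge. -/
def egad (g : ℕ) (p : (ℕ × ℕ) × ℕ) : List (Nd × Nd) :=
  leg g p.1.1 p.2 ++ (leg g p.1.2 p.2 ++ (side g p.1.1 p.2 ++ (side g p.1.2 p.2 ++
    [((1, g - 1, 0, p.2), (1, g, 0, p.2))])))

/-- The padding path. -/
def pad (P : ℕ) : List (Nd × Nd) := (List.range P).map (fun i => ((2, i, 0, 0), (2, i + 1, 0, 0)))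

/-- All arcs (with repetitions). -/
def arcs (E : List (ℕ × ℕ)) (g P : ℕ) : List (Nd × Nd) := E.zipIdx.flatMap (egad g) ++ pad P

theorem mem_arcs {E : List (ℕ × ℕ)} {g P : ℕ} {a : Nd × Nd} :
    a ∈ arcs E g P ↔ (∃ e pr x, E[e]? = some pr ∧ (x = pr.1 ∨ x = pr.2) ∧
      ((∃ c < g + 4, a = ((0, c, x, e % 2 ^ (c - 1)), (0, c + 1, x, e % 2 ^ c))) ∨
        a = ((1, g - 1, 0, e), (1, g, 0, e)) ∨
        a = ((1, g, 0, e), (1, g + 1, x, e)) ∨ a = ((1, g + 1, x, e), (1, g + 2, x, e)) ∨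
        a = ((1, g + 2, x, e), (0, g + 3, x, e % 2 ^ (g + 2))))) ∨
      ∃ i < P, a = ((2, i, 0, 0), (2, i + 1, 0, 0)) := by
  unfold arcs pad
  rw [List.mem_append, List.mem_flatMap]
  refine or_congr ?_ ?_
  · constructor
    · rintro ⟨⟨pr, e⟩, hp, ha⟩
      rw [List.mem_zipIdx_iff_getElem?] at hp
      simp only at hp
      simp only [egad, leg, side, List.mem_append, List.mem_map, List.mem_range, List.mem_cons,
        List.not_mem_nil, or_false] at ha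
      rcases ha with ⟨c, hc, rfl⟩ | ⟨c, hc, rfl⟩ | (rfl | rfl | rfl) | (rfl | rfl | rfl) | rfl
      · exact ⟨e, pr, pr.1, hp, Or.inl rfl, Or.inl ⟨c, hc, rfl⟩⟩
      · exact ⟨e, pr, pr.2, hp, Or.inr rfl, Or.inl ⟨c, hc, rfl⟩⟩
      · exact ⟨e, pr, pr.1, hp, Or.inl rfl, Or.inr (Or.inr (Or.inl rfl))⟩
      · exact ⟨e, pr, pr.1, hp, Or.inl rfl, Or.inr (Or.inr (Or.inr (Or.inl rfl)))⟩
      · exact ⟨e, pr, pr.1, hp, Or.inl rfl, Or.inr (Or.inr (Or.inr (Or.inr rfl)))⟩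
      · exact ⟨e, pr, pr.2, hp, Or.inr rfl, Or.inr (Or.inr (Or.inl rfl))⟩
      · exact ⟨e, pr, pr.2, hp, Or.inr rfl, Or.inr (Or.inr (Or.inr (Or.inl rfl)))⟩
      · exact ⟨e, pr, pr.2, hp, Or.inr rfl, Or.inr (Or.inr (Or.inr (Or.inr rfl)))⟩
      · exact ⟨e, pr, pr.1, hp, Or.inl rfl, Or.inr (Or.inl rfl)⟩
    · rintro ⟨e, pr, x, hp, hx, ha⟩
      refine ⟨(pr, e), List.mem_zipIdx_iff_getElem?.2 hp, ?_⟩
      simp only [egad, leg, side, List.mem_append, List.mem_map, List.mem_range, List.mem_cons,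
        List.not_mem_nil, or_false]
      rcases hx with rfl | rfl
      · rcases ha with ⟨c, hc, rfl⟩ | rfl | rfl | rfl | rfl
        · exact Or.inl ⟨c, hc, rfl⟩
        · tauto
        · tauto
        · tauto
        · tauto
      · rcases ha with ⟨c, hc, rfl⟩ | rfl | rfl | rfl | rfl
        · exact Or.inr (Or.inl ⟨c, hc, rfl⟩)
        · tauto
        · tauto
        · tauto
        · tauto
  · simp only [List.mem_map, List.mem_range]
    constructor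
    · rintro ⟨i, hi, rfl⟩
      exact ⟨i, hi, rfl⟩
    · rintro ⟨i, hi, rfl⟩
      exact ⟨i, hi, rfl⟩

section Only

variable {A : List (Nd × Nd)} {E : List (ℕ × ℕ)} {t g P k : ℕ}

/-- Four-colourability is necessary. -/
theorem only_if (hA : ∀ a, a ∈ A ↔ a ∈ arcs E g P) (hg : t + 1 ≤ g)
    (hE : E.length ≤ 2 ^ t) (hP : 2 ^ (g + 1) < P) (h : InClassInf 2 (lineRel A))
    (hloop : ∀ e ∈ E, e.1 ≠ e.2) :
    ∃ c : ℕ → Fin 4, ∀ e ∈ E, c e.1 ≠ c e.2 := by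
  obtain ⟨k', hk', hcl⟩ := h
  obtain ⟨k, rfl⟩ : ∃ k, k' = k + 1 := ⟨k' - 1, by omega⟩
  have hcount : P ≤ 2 ^ (k + 1) := by
    refine card_le_of_line A (k + 1) P hcl (fun i => ((2, i, 0, 0), (2, i + 1, 0, 0))) ?_ ?_
    · intro i hi
      rw [hA, mem_arcs]
      exact Or.inr ⟨i, hi, rfl⟩
    · intro i _ j _ hij
      simp only [Prod.mk.injEq] at hij
      exact hij.1.2.1
  have hgk : g < k := by
    by_contra hlt
    have : 2 ^ (k + 1) ≤ 2 ^ (g + 1) := Nat.pow_le_pow_right (by norm_num) (by omega)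
    omega
  obtain ⟨l, hshift, hinj⟩ := lab_of_line A k hcl
  -- the nodes of a leg
  have hleg : ∀ e pr x, E[e]? = some pr → (x = pr.1 ∨ x = pr.2) → ∀ c < g + 4,
      (((0, c, x, e % 2 ^ (c - 1)), (0, c + 1, x, e % 2 ^ c)) : Nd × Nd) ∈ A := by
    intro e pr x hp hx c hc
    rw [hA, mem_arcs]
    exact Or.inl ⟨e, pr, x, hp, hx, Or.inl ⟨c, hc, rfl⟩⟩
  have hinner : ∀ e pr x, E[e]? = some pr → (x = pr.1 ∨ x = pr.2) → ∀ c, 1 ≤ c → c ≤ g + 3 →
      Inner A ((0, c, x, e % 2 ^ (c - 1)) : Nd) := by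
    intro e pr x hp hx c hc1 hc2
    obtain ⟨c, rfl⟩ : ∃ d, c = d + 1 := ⟨c - 1, by omega⟩
    exact ⟨⟨_, hleg e pr x hp hx c (by omega)⟩, ⟨_, hleg e pr x hp hx (c + 1) (by omega)⟩⟩
  have hstep : ∀ e pr x, E[e]? = some pr → (x = pr.1 ∨ x = pr.2) → ∀ c, 1 ≤ c → c ≤ g + 2 →
      ∀ i, i + 1 < k → l (0, c, x, e % 2 ^ (c - 1)) (i + 1) = l (0, c + 1, x, e % 2 ^ c) i := by
    intro e pr x hp hx c hc1 hc2 i hi
    exact hshift _ _ (hleg e pr x hp hx c (by omega)) (hinner e pr x hp hx c hc1 (by omega))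
      (hinner e pr x hp hx (c + 1) (by omega) (by omega)) i hi
  have hpath : ∀ e pr x, E[e]? = some pr → (x = pr.1 ∨ x = pr.2) → ∀ c, 1 ≤ c →
      ∀ d i, c + d ≤ g + 3 → i + d < k →
      l (0, c, x, e % 2 ^ (c - 1)) (i + d) = l (0, c + d, x, e % 2 ^ (c + d - 1)) i := by
    intro e pr x hp hx c hc d
    induction d with
    | zero => intro i _ _; rfl
    | succ d ih =>
      intro i h1 h2
      have h3 := ih (i + 1) (by omega) (by omega)
      have h4 := hstep e pr x hp hx (c + d) (by omega) (by omega) i (by omega)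
      rw [show i + (d + 1) = i + 1 + d by ring, h3, h4]
      rfl
  -- the nodes of the side branches
  have sarc : ∀ e pr x, E[e]? = some pr → (x = pr.1 ∨ x = pr.2) →
      ((((1, g - 1, 0, e), (1, g, 0, e)) : Nd × Nd) ∈ A ∧
      (((1, g, 0, e), (1, g + 1, x, e)) : Nd × Nd) ∈ A ∧
      (((1, g + 1, x, e), (1, g + 2, x, e)) : Nd × Nd) ∈ A ∧
      (((1, g + 2, x, e), (0, g + 3, x, e % 2 ^ (g + 2))) : Nd × Nd) ∈ A) := by
    intro e pr x hp hx
    refine ⟨?_, ?_, ?_, ?_⟩ <;> rw [hA, mem_arcs] <;> refine Or.inl ⟨e, pr, x, hp, hx, ?_⟩ <;> tauto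
  have hz : ∀ e pr x, E[e]? = some pr → (x = pr.1 ∨ x = pr.2) →
      Inner A ((0, g + 3, x, e % 2 ^ (g + 2)) : Nd) := fun e pr x hp hx =>
    hinner e pr x hp hx (g + 3) (by omega) (by omega)
  have hm3 : ∀ e pr x, E[e]? = some pr → (x = pr.1 ∨ x = pr.2) → ∀ i, i + 3 < k →
      l (1, g, 0, e) (i + 3) = l (0, g + 3, x, e % 2 ^ (g + 2)) i := by
    intro e pr x hp hx i hi
    obtain ⟨s1, s2, s3, s4⟩ := sarc e pr x hp hx
    rw [show i + 3 = i + 2 + 1 by ring,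
      hshift _ _ s2 ⟨⟨_, s1⟩, ⟨_, s2⟩⟩ ⟨⟨_, s2⟩, ⟨_, s3⟩⟩ _ (by omega),
      hshift _ _ s3 ⟨⟨_, s2⟩, ⟨_, s3⟩⟩ ⟨⟨_, s3⟩, ⟨_, s4⟩⟩ _ (by omega),
      hshift _ _ s4 ⟨⟨_, s3⟩, ⟨_, s4⟩⟩ (hz e pr x hp hx) _ (by omega)]
  have hm2 : ∀ e pr x, E[e]? = some pr → (x = pr.1 ∨ x = pr.2) → 2 < k →
      l (1, g, 0, e) 2 = l (1, g + 2, x, e) 0 := by
    intro e pr x hp hx hk
    obtain ⟨s1, s2, s3, s4⟩ := sarc e pr x hp hx
    rw [hshift _ _ s2 ⟨⟨_, s1⟩, ⟨_, s2⟩⟩ ⟨⟨_, s2⟩, ⟨_, s3⟩⟩ 1 (by omega),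
      hshift _ _ s3 ⟨⟨_, s2⟩, ⟨_, s3⟩⟩ ⟨⟨_, s3⟩, ⟨_, s4⟩⟩ 0 (by omega)]
  have hne : ∀ e pr x, E[e]? = some pr → (x = pr.1 ∨ x = pr.2) → 2 < k →
      l (0, g, x, e % 2 ^ (g - 1)) 2 ≠ l (1, g, 0, e) 2 := by
    intro e pr x hp hx hk heq
    obtain ⟨s1, s2, s3, s4⟩ := sarc e pr x hp hx
    have h1 := hpath e pr x hp hx g (by omega) 2 0 (by omega) (by omega)
    rw [hm2 e pr x hp hx hk] at heq
    have h2 : ∀ i < k, l (0, g + 2, x, e % 2 ^ (g + 1)) i = l (1, g + 2, x, e) i := by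
      intro i hi
      rcases i with _ | i
      · rw [← heq]
        exact h1.symm
      · have h3 := hstep e pr x hp hx (g + 2) (by omega) (by omega) i hi
        rw [show g + 2 - 1 = g + 1 by omega] at h3
        rw [h3, hshift _ _ s4 ⟨⟨_, s3⟩, ⟨_, s4⟩⟩ (hz e pr x hp hx) _ hi]
    have h3 := hinj _ _ (hinner e pr x hp hx (g + 2) (by omega) (by omega))
      (⟨⟨_, s3⟩, ⟨_, s4⟩⟩ : Inner A ((1, g + 2, x, e) : Nd)) (fun i hi => by
        have := h2 i hi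
        rw [show g + 2 - 1 = g + 1 by omega]
        exact this)
    simp only [Prod.mk.injEq] at h3
    omega
  -- the colouring
  have hcol : ∃ c : ℕ → Fin 4, ∀ x y, c x = c y → (l (0, 1, x, 0) (g - 1) = l (0, 1, y, 0) (g - 1) ∧
      l (0, 1, x, 0) g = l (0, 1, y, 0) g) := by
    refine ⟨fun x => finProdFinEquiv (m := 2) (n := 2) (l (0, 1, x, 0) (g - 1), l (0, 1, x, 0) g),
      fun x y hxy => ?_⟩
    have := finProdFinEquiv.injective hxy
    simpa using this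
  obtain ⟨c, hc⟩ := hcol
  refine ⟨c, fun pr hpr heq => ?_⟩
  obtain ⟨e, he, hepr⟩ := List.getElem_of_mem hpr
  have hp : E[e]? = some pr := by rw [List.getElem?_eq_getElem he, hepr]
  obtain ⟨c1, c2⟩ := hc _ _ heq
  have hroot : ∀ x, (x = pr.1 ∨ x = pr.2) → (l (0, g, x, e % 2 ^ (g - 1)) 0 = l (0, 1, x, 0) (g - 1) ∧
      (1 < k → l (0, g, x, e % 2 ^ (g - 1)) 1 = l (0, 1, x, 0) g)) := by
    intro x hx
    constructor
    · have h1 := hpath e pr x hp hx 1 le_rfl (g - 1) 0 (by omega) (by omega)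
      rw [show 1 + (g - 1) = g by omega] at h1
      simp only [Nat.sub_self, pow_zero, Nat.mod_one, Nat.zero_add] at h1
      exact h1.symm
    · intro _
      have h1 := hpath e pr x hp hx 1 le_rfl (g - 1) 1 (by omega) (by omega)
      rw [show 1 + (g - 1) = g by omega] at h1
      simp only [Nat.sub_self, pow_zero, Nat.mod_one] at h1
      exact h1.symm
  have hx := hroot pr.1 (Or.inl rfl)
  have hy := hroot pr.2 (Or.inr rfl)
  have hfin : ∀ i < k, l (0, g, pr.1, e % 2 ^ (g - 1)) i = l (0, g, pr.2, e % 2 ^ (g - 1)) i := by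
    intro i hi
    rcases i with _ | _ | _ | i
    · rw [hx.1, hy.1, c1]
    · rw [hx.2 hi, hy.2 hi, c2]
    · have h1 := hne e pr pr.1 hp (Or.inl rfl) hi
      have h2 := hne e pr pr.2 hp (Or.inr rfl) hi
      have : ∀ a b m : Fin 2, a ≠ m → b ≠ m → a = b := by decide
      exact this _ _ _ h1 h2
    · have h1 := hpath e pr pr.1 hp (Or.inl rfl) g (by omega) 3 i (by omega) hi
      have h2 := hpath e pr pr.2 hp (Or.inr rfl) g (by omega) 3 i (by omega) hi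
      have h3 := hm3 e pr pr.1 hp (Or.inl rfl) i hi
      have h4 := hm3 e pr pr.2 hp (Or.inr rfl) i hi
      rw [h1, h2]
      exact h3.symm.trans h4
  have := hinj _ _ (hinner e pr pr.1 hp (Or.inl rfl) g (by omega) (by omega))
    (hinner e pr pr.2 hp (Or.inr rfl) g (by omega) (by omega)) hfin
  simp only [Prod.mk.injEq] at this
  exact hloop pr hpr this.2.2.1

end Only

end Pool.Agent.H741R2
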