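import Pool.Agent.H741R2.DBDefs

/-!
# Labellings of line digraphs
-/

namespace Pool.Agent.H741R2

theorem InClass.of_embedding {V W : Type} {A : V → V → Prop} {B : W → W → Prop} {α k : ℕ}
    (f : V → W) (hf : Function.Injective f) (h : ∀ u v, A u v ↔ B (f u) (f v))
    (hW : InClass α k B) : InClass α k A := by
  obtain ⟨L, hL⟩ := hW
  exact ⟨fun v => L (f v), fun u v huv => hf (hL.inj huv), fun u v => by rw [h, hL.arc]⟩

variable {Λ : Type}

/-- The arc relation of the line digraph of the digraph with list of arcs `A`. -/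
def lineRel (A : List (Λ × Λ)) (a b : {a // a ∈ A}) : Prop := a.1.2 = b.1.1

/-- A letter as an element of `Fin 2`. -/
def toF (b : Bool) : Fin 2 := if b = true then 1 else 0

theorem toF_inj {a b : Bool} (h : toF a = toF b) : a = b := by
  revert h
  cases a <;> cases b <;> simp [toF]

/-- Labels of the vertices of `H` give a labelling of the line digraph of `H`. -/
theorem line_of_lab (A : List (Λ × Λ)) (k : ℕ) (hk : 1 ≤ k) (l : Λ → ℕ → Bool)
    (hs : ∀ a ∈ A, ∀ i, i + 1 < k → l a.1 (i + 1) = l a.2 i)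
    (hi : ∀ u v, (∃ a ∈ A, u = a.1 ∨ u = a.2) → (∃ a ∈ A, v = a.1 ∨ v = a.2) →
      (∀ i < k, l u i = l v i) → u = v) : InClassInf 2 (lineRel A) := by
  refine ⟨k + 1, by omega, fun a i => toF (if (i : ℕ) < k then l a.1.1 i else l a.1.2 (k - 1)),
    ?_, ?_⟩
  · intro a b hab
    have h1 : ∀ i < k, l a.1.1 i = l b.1.1 i := by
      intro i hik
      have := toF_inj (congrFun hab ⟨i, by omega⟩)
      simpa [hik] using this
    have h2 : ∀ i < k, l a.1.2 i = l b.1.2 i := by
      intro i hik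
      have := toF_inj (congrFun hab ⟨i + 1, by omega⟩)
      by_cases hik' : i + 1 < k
      · simp only [hik', if_true] at this
        rwa [hs _ a.2 _ hik', hs _ b.2 _ hik'] at this
      · simp only [hik', if_false] at this
        have e : i = k - 1 := by omega
        rw [e]
        exact this
    exact Subtype.ext (Prod.ext (hi _ _ ⟨a.1, a.2, Or.inl rfl⟩ ⟨b.1, b.2, Or.inl rfl⟩ h1)
      (hi _ _ ⟨a.1, a.2, Or.inr rfl⟩ ⟨b.1, b.2, Or.inr rfl⟩ h2))
  · intro a b
    have key : ∀ i < k, (if i + 1 < k then l a.1.1 (i + 1) else l a.1.2 (k - 1)) = l a.1.2 i := by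
      intro i hik
      split_ifs with h
      · exact hs _ a.2 _ h
      · have e : i = k - 1 := by omega
        rw [e]
    constructor
    · intro hab i j hij
      have hik : (i : ℕ) < k := by omega
      have h1 := key i hik
      simp only [hij, hik, if_true, h1]
      rw [show a.1.2 = b.1.1 from hab]
    · intro h
      refine hi _ _ ⟨a.1, a.2, Or.inr rfl⟩ ⟨b.1, b.2, Or.inl rfl⟩ ?_
      intro i hik
      have h1 := toF_inj (h ⟨i, by omega⟩ ⟨i + 1, by omega⟩ rfl)
      simp only [hik, if_true] at h1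
      rw [key i hik] at h1
      exact h1

/-- A vertex of `H` that has an in-arc and an out-arc. -/
def Inner (A : List (Λ × Λ)) (v : Λ) : Prop := (∃ u, (u, v) ∈ A) ∧ ∃ w, (v, w) ∈ A

/-- A labelling of the line digraph of `H` gives labels of the inner vertices of `H`. -/
theorem lab_of_line (A : List (Λ × Λ)) (k : ℕ) (h : InClass 2 (k + 1) (lineRel A)) :
    ∃ l : Λ → ℕ → Fin 2,
      (∀ u v, (u, v) ∈ A → Inner A u → Inner A v → ∀ i, i + 1 < k → l u (i + 1) = l v i) ∧
      (∀ u v, Inner A u → Inner A v → (∀ i < k, l u i = l v i) → u = v) := by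
  classical
  obtain ⟨L, hL⟩ := h
  let M : Λ × Λ → ℕ → Fin 2 := fun a i =>
    if h : a ∈ A ∧ i < k + 1 then L ⟨a, h.1⟩ ⟨i, h.2⟩ else 0
  have hM : ∀ a ∈ A, ∀ b ∈ A, a.2 = b.1 ↔ ∀ i < k, M a (i + 1) = M b i := by
    intro a ha b hb
    have h1 := hL.arc ⟨a, ha⟩ ⟨b, hb⟩
    rw [show a.2 = b.1 ↔ lineRel A ⟨a, ha⟩ ⟨b, hb⟩ from Iff.rfl, h1]
    constructor
    · intro h2 i hik
      simp only [M]
      rw [dif_pos ⟨ha, by omega⟩, dif_pos ⟨hb, by omega⟩]
      exact h2 ⟨i, by omega⟩ ⟨i + 1, by omega⟩ rfl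
    · intro h2 i j hij
      have h3 := h2 i (by omega)
      simp only [M] at h3
      rw [dif_pos ⟨ha, by omega⟩, dif_pos ⟨hb, by omega⟩] at h3
      have ej : j = ⟨(i : ℕ) + 1, by omega⟩ := Fin.ext hij
      rw [ej]
      exact h3
  let l : Λ → ℕ → Fin 2 := fun v i => if h : ∃ w, (v, w) ∈ A then M (v, h.choose) i else 0
  have hl : ∀ v, Inner A v → ∀ u, (u, v) ∈ A → ∀ i < k, M (u, v) (i + 1) = l v i := by
    rintro v ⟨_, hw⟩ u hu i hik
    simp only [l]
    rw [dif_pos hw]
    exact (hM _ hu _ hw.choose_spec).1 rfl i hik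
  have hl' : ∀ v, Inner A v → ∀ w, (v, w) ∈ A → ∀ i < k, M (v, w) i = l v i := by
    rintro v hv w hw i hik
    obtain ⟨u, hu⟩ := hv.1
    rw [← hl v hv u hu i hik]
    exact ((hM _ hu _ hw).1 rfl i hik).symm
  refine ⟨l, ?_, ?_⟩
  · intro u v huv hu hv i hik
    rw [← hl v hv u huv i (by omega), ← hl' u hu v huv (i + 1) hik]
  · intro u v hu hv huv
    obtain ⟨w, hw⟩ := hu.1
    obtain ⟨z, hz⟩ := hv.2
    exact (hM (w, u) hw (v, z) hz).2 fun i hik => by
      rw [hl u hu w hw i hik, hl' v hv z hz i hik, huv i hik]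

/-- Counting: the number of arcs of `H` is at most the number of labels. -/
theorem card_le_of_line (A : List (Λ × Λ)) (k P : ℕ) (h : InClass 2 k (lineRel A))
    (f : ℕ → Λ × Λ) (hf : ∀ i < P, f i ∈ A) (hinj : ∀ i < P, ∀ j < P, f i = f j → i = j) :
    P ≤ 2 ^ k := by
  obtain ⟨L, hL⟩ := h
  have h1 : Function.Injective (fun i : Fin P => L ⟨f i, hf i i.2⟩) := by
    intro i j hij
    have h2 := hL.inj hij
    exact Fin.ext (hinj i i.2 j j.2 (congrArg Subtype.val h2))
  have h3 := Fintype.card_le_of_injective _ h1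
  simpa using h3

end Pool.Agent.H741R2
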