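import Pool.Agent.H741R2.DBIf
import Pool.Agent.H692R2.Col
import Pool.Agent.H671R2.PolyAuto
import Pool.Agent.H687R2.IntPoly
import Pool.Agent.NPC.Sat2

/-!
# The reduction in polynomial time
-/

namespace Pool.Agent.H741R2

open Pool.Agent.NPC Pool.Agent.H692R2

/-! ## Renaming the vertices of the graph -/

/-- The list of the ends of the edges. -/
def names (E : List (ℕ × ℕ)) : List ℕ := E.flatMap (fun e => [e.1, e.2])

/-- The graph with renamed vertices. -/
noncomputable def renE (E : List (ℕ × ℕ)) : List (ℕ × ℕ) :=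
  E.map (fun e => (index (names E) e.1, index (names E) e.2))

theorem names_length (E : List (ℕ × ℕ)) : (names E).length = 2 * E.length := by
  induction E with
  | nil => rfl
  | cons e E ih =>
    unfold names at *
    rw [List.flatMap_cons, List.length_append, ih]
    simp
    omega

theorem mem_names {E : List (ℕ × ℕ)} {e : ℕ × ℕ} (h : e ∈ E) : e.1 ∈ names E ∧ e.2 ∈ names E := by
  constructor <;> exact List.mem_flatMap.2 ⟨e, h, by simp⟩

theorem renE_length (E : List (ℕ × ℕ)) : (renE E).length = E.length := by simp [renE]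

theorem renE_bounded (E : List (ℕ × ℕ)) :
    ∀ e ∈ renE E, e.1 < 2 * E.length ∧ e.2 < 2 * E.length := by
  intro e he
  unfold renE at he
  rw [List.mem_map] at he
  obtain ⟨d, hd, rfl⟩ := he
  have h := mem_names hd
  rw [← names_length]
  exact ⟨index_lt h.1, index_lt h.2⟩

theorem renE_loopless {E : List (ℕ × ℕ)} (h : Loopless E) : Loopless (renE E) := by
  intro e he
  unfold renE at he
  rw [List.mem_map] at he
  obtain ⟨d, hd, rfl⟩ := he
  have h' := mem_names hd
  exact fun heq => h d hd (index_inj h'.1 h'.2 heq)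

theorem renE_col (k : ℕ) (E : List (ℕ × ℕ)) : Col k E ↔ Col k (renE E) := by
  constructor
  · rintro ⟨c, hc⟩
    refine ⟨fun i => c ((names E)[i]?.getD 0), fun e he => ?_⟩
    unfold renE at he
    rw [List.mem_map] at he
    obtain ⟨d, hd, rfl⟩ := he
    have h' := mem_names hd
    simp only [getElem?_index h'.1, getElem?_index h'.2, Option.getD_some]
    exact hc d hd
  · rintro ⟨c, hc⟩
    refine ⟨fun v => c (index (names E) v), fun e he => ?_⟩
    exact hc (index (names E) e.1, index (names E) e.2) (List.mem_map.2 ⟨e, he, rfl⟩)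

theorem renE_poly : Poly renE := by
  have hn : Poly names := by
    unfold names
    exact Poly.flatMap Poly.id (Poly.cons (Poly.fst (Poly.snd Poly.id))
      (Poly.cons (Poly.snd (Poly.snd Poly.id)) (NPC.Poly.const [])))
  unfold renE
  exact NPC.Poly.map (F := fun E (e : ℕ × ℕ) => (index (names E) e.1, index (names E) e.2)) Poly.id
    (Poly.pair (Poly.index (hn.comp (Poly.fst Poly.id)) (Poly.fst (Poly.snd Poly.id)))
      (Poly.index (hn.comp (Poly.fst Poly.id)) (Poly.snd (Poly.snd Poly.id))))

/-! ## The parameters -/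

/-- The number of binary digits. -/
def tt (E : List (ℕ × ℕ)) : ℕ := Nat.size (2 * E.length)

/-- The critical height. -/
def gg (E : List (ℕ × ℕ)) : ℕ := 2 * tt E + 2

/-- The length of the padding path. -/
def PP (E : List (ℕ × ℕ)) : ℕ := 8 * ((4 * E.length + 1) * (4 * E.length + 1)) + 1

theorem lt_two_pow_tt (E : List (ℕ × ℕ)) : 2 * E.length < 2 ^ tt E := Nat.lt_size_self _

theorem two_pow_tt_le (E : List (ℕ × ℕ)) : 2 ^ tt E ≤ 4 * E.length + 1 := by
  unfold tt
  rcases Nat.eq_zero_or_pos E.length with h | h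
  · rw [h]; simp
  · have h1 : 2 ^ (Nat.size (2 * E.length) - 1) ≤ 2 * E.length := by
      rw [← Nat.lt_size]
      have : 0 < Nat.size (2 * E.length) := Nat.size_pos.2 (by omega)
      omega
    have h2 : 0 < Nat.size (2 * E.length) := Nat.size_pos.2 (by omega)
    obtain ⟨s, hs⟩ : ∃ s, Nat.size (2 * E.length) = s + 1 := ⟨Nat.size (2 * E.length) - 1, by omega⟩
    rw [hs] at h1 ⊢
    simp only [Nat.add_sub_cancel] at h1
    rw [pow_succ]
    omega

theorem PP_large (E : List (ℕ × ℕ)) : 2 ^ (gg E + 1) < PP E := by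
  unfold gg PP
  have h := two_pow_tt_le E
  have h1 : 2 ^ (2 * tt E + 2 + 1) = 8 * (2 ^ tt E * 2 ^ tt E) := by ring
  rw [h1]
  have := Nat.mul_le_mul h h
  omega

theorem tt_uPoly : UPoly tt :=
  (UPoly.length (Poly.natBits (n := fun E : List (ℕ × ℕ) => 2 * E.length)
    (Poly.mul (NPC.Poly.const 2) (Poly.length Poly.id)))).congr fun E => by
      simp only [tt, Nat.size_eq_bits_len]

theorem gg_uPoly : UPoly gg := UPoly.add (UPoly.mul (UPoly.const 2) tt_uPoly) (UPoly.const 2)

theorem PP_uPoly : UPoly PP :=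
  UPoly.add (UPoly.mul (UPoly.const 8) (UPoly.mul
    (UPoly.add (UPoly.mul (UPoly.const 4) (UPoly.length Poly.id)) (UPoly.const 1))
    (UPoly.add (UPoly.mul (UPoly.const 4) (UPoly.length Poly.id)) (UPoly.const 1))))
    (UPoly.const 1)

/-! ## The arcs -/

section

variable {α : Type} [TEnc α]

theorem leg_poly {g x e : α → ℕ} (hg : UPoly g) (hx : Poly x) (he : Poly e) :
    Poly (fun a => leg (g a) (x a) (e a)) := by
  have hg4 : UPoly (fun a => g a + 4) := UPoly.add hg (UPoly.const 4)
  have h1 : UPoly (fun p : α × ℕ => min (p.2 - 1) (g p.1 + 4)) :=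
    UPoly.of_le (n := fun p : α × ℕ => g p.1 + 4)
      (Poly.min (Poly.sub (Poly.snd Poly.id) (NPC.Poly.const 1))
        (hg4.toPoly.comp (Poly.fst Poly.id))) (hg4.comp (Poly.fst Poly.id))
      (fun p => Nat.min_le_right _ _)
  have h2 : UPoly (fun p : α × ℕ => min p.2 (g p.1 + 4)) :=
    UPoly.of_le (n := fun p : α × ℕ => g p.1 + 4)
      (Poly.min (Poly.snd Poly.id)
        (hg4.toPoly.comp (Poly.fst Poly.id))) (hg4.comp (Poly.fst Poly.id))
      (fun p => Nat.min_le_right _ _)
  have hx' : Poly (fun p : α × ℕ => x p.1) := hx.comp (Poly.fst Poly.id)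
  have he' : Poly (fun p : α × ℕ => e p.1) := he.comp (Poly.fst Poly.id)
  have hc : Poly (fun p : α × ℕ => p.2) := Poly.snd Poly.id
  refine (NPC.Poly.map (l := fun a => List.range (g a + 4))
    (F := fun a c => (((0, c, x a, e a % 2 ^ (min (c - 1) (g a + 4))) : Nd),
      ((0, c + 1, x a, e a % 2 ^ (min c (g a + 4))) : Nd))) hg4.range
    (Poly.pair (Poly.pair (NPC.Poly.const 0) (Poly.pair hc (Poly.pair hx'
      (Poly.mod he' (Poly.npow (NPC.Poly.const 2) h1)))))
      (Poly.pair (NPC.Poly.const 0) (Poly.pair (Poly.succ hc) (Poly.pair hx'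
      (Poly.mod he' (Poly.npow (NPC.Poly.const 2) h2))))))).congr fun a => ?_
  unfold leg
  refine List.map_congr_left fun c hc => ?_
  rw [List.mem_range] at hc
  rw [Nat.min_eq_left (by omega : c - 1 ≤ g a + 4), Nat.min_eq_left (by omega : c ≤ g a + 4)]

theorem side_poly {g x e : α → ℕ} (hg : UPoly g) (hx : Poly x) (he : Poly e) :
    Poly (fun a => side (g a) (x a) (e a)) := by
  have h0 : Poly (fun a => ((1, g a, 0, e a) : Nd)) :=
    Poly.pair (NPC.Poly.const 1) (Poly.pair hg.toPoly (Poly.pair (NPC.Poly.const 0) he))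
  have h1 : Poly (fun a => ((1, g a + 1, x a, e a) : Nd)) :=
    Poly.pair (NPC.Poly.const 1) (Poly.pair (Poly.succ hg.toPoly) (Poly.pair hx he))
  have h2 : Poly (fun a => ((1, g a + 2, x a, e a) : Nd)) :=
    Poly.pair (NPC.Poly.const 1) (Poly.pair (Poly.add hg.toPoly (NPC.Poly.const 2))
      (Poly.pair hx he))
  have h3 : Poly (fun a => ((0, g a + 3, x a, e a % 2 ^ (g a + 2)) : Nd)) :=
    Poly.pair (NPC.Poly.const 0) (Poly.pair (Poly.add hg.toPoly (NPC.Poly.const 3))
      (Poly.pair hx (Poly.mod he (Poly.npow (NPC.Poly.const 2) (UPoly.add hg (UPoly.const 2))))))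
  exact Poly.cons (Poly.pair h0 h1) (Poly.cons (Poly.pair h1 h2) (Poly.cons (Poly.pair h2 h3)
    (NPC.Poly.const [])))

theorem egad_poly {g : α → ℕ} {p : α → (ℕ × ℕ) × ℕ} (hg : UPoly g) (hp : Poly p) :
    Poly (fun a => egad (g a) (p a)) := by
  have h1 : Poly (fun a => (p a).1.1) := Poly.fst (Poly.fst hp)
  have h2 : Poly (fun a => (p a).1.2) := Poly.snd (Poly.fst hp)
  have h3 : Poly (fun a => (p a).2) := Poly.snd hp
  unfold egad
  exact Poly.append (leg_poly hg h1 h3) (Poly.append (leg_poly hg h2 h3) (Poly.append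
    (side_poly hg h1 h3) (Poly.append (side_poly hg h2 h3) (Poly.cons (Poly.pair
    (Poly.pair (NPC.Poly.const 1) (Poly.pair (Poly.sub hg.toPoly (NPC.Poly.const 1))
      (Poly.pair (NPC.Poly.const 0) h3)))
    (Poly.pair (NPC.Poly.const 1) (Poly.pair hg.toPoly
      (Poly.pair (NPC.Poly.const 0) h3)))) (NPC.Poly.const [])))))

theorem pad_poly {P : α → ℕ} (hP : UPoly P) : Poly (fun a => pad (P a)) := by
  unfold pad
  exact NPC.Poly.map (F := fun _ i => (((2, i, 0, 0) : Nd), ((2, i + 1, 0, 0) : Nd))) hP.range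
    (Poly.pair (Poly.pair (NPC.Poly.const 2) (Poly.pair (Poly.snd Poly.id) (NPC.Poly.const (0, 0))))
      (Poly.pair (NPC.Poly.const 2) (Poly.pair (Poly.succ (Poly.snd Poly.id))
        (NPC.Poly.const (0, 0)))))

theorem arcs_poly {E : α → List (ℕ × ℕ)} {g P : α → ℕ} (hE : Poly E) (hg : UPoly g)
    (hP : UPoly P) : Poly (fun a => arcs (E a) (g a) (P a)) := by
  unfold arcs
  exact Poly.append (Poly.flatMap (F := fun a p => egad (g a) p) (Poly.zipIdx hE)
    (egad_poly (hg.comp (Poly.fst Poly.id)) (Poly.snd Poly.id))) (pad_poly hP)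

/-- Removing repetitions. -/
theorem dedup_poly {β : Type} [TEnc β] [DecidableEq β] {l : α → List β} (hl : Poly l) :
    Poly (fun a => (l a).dedup) := by
  obtain ⟨r, hr⟩ := hl.sz_le
  have key : ∀ l : List β, l.foldr (fun b s => if b ∈ s then s else b :: s) [] = l.dedup := by
    intro l
    induction l with
    | nil => rfl
    | cons b l ih =>
      rw [List.foldr_cons, ih]
      by_cases h : b ∈ l
      · rw [List.dedup_cons_of_mem h, if_pos (List.mem_dedup.2 h)]
      · rw [List.dedup_cons_of_notMem h, if_neg (fun h' => h (List.mem_dedup.1 h'))]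
  have hsz : ∀ l : List β, sz (l.dedup) ≤ sz l := by
    intro l
    induction l with
    | nil => simp
    | cons b l ih =>
      by_cases h : b ∈ l
      · rw [List.dedup_cons_of_mem h, sz_list_cons]
        omega
      · rw [List.dedup_cons_of_notMem h, sz_list_cons, sz_list_cons]
        omega
  refine (Poly.foldr (s := fun _ => []) (F := fun _ b (s : List β) => if b ∈ s then s else b :: s)
    hl (NPC.Poly.const _) ?_ r ?_).congr fun a => key _
  · exact Poly.ite (p := fun p : α × β × List β => p.2.1 ∈ p.2.2)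
      (Poly.decide_mem (Poly.fst (Poly.snd Poly.id)) (Poly.snd (Poly.snd Poly.id)))
      (Poly.snd (Poly.snd Poly.id)) (Poly.cons (Poly.fst (Poly.snd Poly.id))
      (Poly.snd (Poly.snd Poly.id)))
  · intro a k _
    rw [key]
    exact (hsz _).trans ((Poly.sz_drop_le _ _).trans (hr a))

end

/-! ## The instance -/

/-- The list of arcs of the digraph whose line digraph is the instance. -/
noncomputable def HA (E : List (ℕ × ℕ)) : List (Nd × Nd) := (arcs (renE E) (gg E) (PP E)).dedup

/-- The line digraph, on the positions of the list. -/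
def ldig (A : List (Nd × Nd)) : List ℕ × List (ℕ × ℕ) :=
  (List.range A.length, (List.range A.length ×ˢ List.range A.length).filter
    (fun p => decide ((A[p.1]?).map Prod.snd = (A[p.2]?).map Prod.fst)))

theorem HA_poly : Poly HA := dedup_poly (arcs_poly renE_poly gg_uPoly PP_uPoly)

theorem ldig_poly : Poly ldig := by
  have hr : Poly (fun A : List (Nd × Nd) => List.range A.length) := (UPoly.length Poly.id).range
  unfold ldig
  refine Poly.pair hr (Poly.filter (p := fun (A : List (Nd × Nd)) (p : ℕ × ℕ) =>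
    decide ((A[p.1]?).map Prod.snd = (A[p.2]?).map Prod.fst)) (R671.poly_product hr hr) ?_)
  refine Poly.decide_eq ?_ ?_
  · exact Poly.optMap_fp (h := fun _ => Prod.snd) (Poly.getElem? (Poly.fst Poly.id)
      (Poly.fst (Poly.snd Poly.id))) (Poly.snd (Poly.snd Poly.id))
  · exact Poly.optMap_fp (h := fun _ => Prod.fst) (Poly.getElem? (Poly.fst Poly.id)
      (Poly.snd (Poly.snd Poly.id))) (Poly.fst (Poly.snd Poly.id))

theorem ldig_isDigraph (A : List (Nd × Nd)) : IsDigraph (ldig A) := by
  refine ⟨List.nodup_range, (List.Nodup.product List.nodup_range List.nodup_range).filter _, ?_⟩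
  intro a ha
  unfold ldig at ha
  rw [List.mem_filter] at ha
  have := List.mem_product.1 ha.1
  exact this

theorem mem_ldig {A : List (Nd × Nd)} {i j : ℕ} (hi : i < A.length) (hj : j < A.length) :
    (i, j) ∈ (ldig A).2 ↔ A[i].2 = A[j].1 := by
  unfold ldig
  simp [List.mem_filter, List.mem_product, hi, hj]

theorem ldig_class {A : List (Nd × Nd)} (hA : A.Nodup) :
    InClassInf 2 (arcRel (ldig A)) ↔ InClassInf 2 (lineRel A) := by
  have hlt : ∀ v : {v : ℕ // v ∈ (ldig A).1}, v.1 < A.length := fun v => by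
    have := v.2
    unfold ldig at this
    simpa using this
  constructor
  · rintro ⟨k, hk, h⟩
    have hm : ∀ a : {a // a ∈ A}, A.idxOf a.1 ∈ (ldig A).1 := fun a => by
      unfold ldig
      simp only [List.mem_range]
      exact List.idxOf_lt_length_iff.2 a.2
    refine ⟨k, hk, h.of_embedding (fun a => ⟨A.idxOf a.1, hm a⟩) ?_ ?_⟩
    · intro a b hab
      have h1 := congrArg Subtype.val hab
      exact Subtype.ext ((List.idxOf_inj a.2).1 h1)
    · intro a b
      unfold arcRel
      rw [mem_ldig (List.idxOf_lt_length_iff.2 a.2) (List.idxOf_lt_length_iff.2 b.2)]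
      simp only [List.getElem_idxOf, lineRel]
  · rintro ⟨k, hk, h⟩
    refine ⟨k, hk, h.of_embedding (fun v => ⟨A[v.1]'(hlt v), List.getElem_mem _⟩) ?_ ?_⟩
    · intro u v huv
      have h1 := congrArg Subtype.val huv
      exact Subtype.ext ((List.Nodup.getElem_inj_iff hA).1 h1)
    · intro u v
      unfold arcRel
      rw [mem_ldig (hlt u) (hlt v)]
      rfl

/-- The reduction. -/
noncomputable def red (E : List (ℕ × ℕ)) : List ℕ × List (ℕ × ℕ) := ldig (HA E)

theorem red_poly : Poly red := ldig_poly.comp HA_poly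

theorem red_correct {E : List (ℕ × ℕ)} (hE : Loopless E) :
    Col 4 E ↔ InClassInf 2 (arcRel (red E)) := by
  have hnd : (HA E).Nodup := List.nodup_dedup _
  have hmem : ∀ a, a ∈ HA E ↔ a ∈ arcs (renE E) (gg E) (PP E) := fun a => List.mem_dedup
  have hlen : (renE E).length ≤ 2 ^ tt E := by
    rw [renE_length]
    have := lt_two_pow_tt E
    omega
  unfold red
  rw [ldig_class hnd, renE_col]
  constructor
  · intro h
    refine if_dir (t := tt E) hmem hlen ?_ (renE_loopless hE) h
    intro e he
    have h1 := renE_bounded E e he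
    have h2 := lt_two_pow_tt E
    omega
  · intro h
    exact only_if (t := tt E) hmem (by unfold gg; omega) hlen (PP_large E) h (renE_loopless hE)

end Pool.Agent.H741R2
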