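import Mathlib

/-!
# The gaps and the two pairings
-/

namespace Pool.Agent.H741R2.LJ

/-! ## Nested windows -/

theorem surj_of_inj {G : ℕ} {γ : ℕ → ℕ} (hlt : ∀ g < G, γ g < G)
    (hinj : ∀ g < G, ∀ h < G, γ g = γ h → g = h) : ∀ h < G, ∃ g < G, γ g = h := by
  have h1 : (Finset.range G).image γ = Finset.range G := by
    apply Finset.eq_of_subset_of_card_le
    · intro x hx
      rw [Finset.mem_image] at hx
      obtain ⟨g, hg, rfl⟩ := hx
      exact Finset.mem_range.2 (hlt g (Finset.mem_range.1 hg))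
    · rw [Finset.card_image_of_injOn]
      intro a ha b hb hab
      exact hinj a (by simpa using ha) b (by simpa using hb) hab
  intro h hh
  have : h ∈ (Finset.range G).image γ := by rw [h1]; exact Finset.mem_range.2 hh
  rw [Finset.mem_image] at this
  obtain ⟨g, hg, e⟩ := this
  exact ⟨g, Finset.mem_range.1 hg, e⟩

theorem sum_perm {G : ℕ} {γ : ℕ → ℕ} (hlt : ∀ g < G, γ g < G)
    (hinj : ∀ g < G, ∀ h < G, γ g = γ h → g = h) (w : ℕ → ℕ) :
    ∑ g ∈ Finset.range G, w (γ g) = ∑ g ∈ Finset.range G, w g := by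
  refine Finset.sum_bij (fun g _ => γ g) ?_ ?_ ?_ ?_
  · intro g hg
    exact Finset.mem_range.2 (hlt g (Finset.mem_range.1 hg))
  · intro a ha b hb hab
    exact hinj a (Finset.mem_range.1 ha) b (Finset.mem_range.1 hb) hab
  · intro h hh
    obtain ⟨g, hg, e⟩ := surj_of_inj hlt hinj h (Finset.mem_range.1 hh)
    exact ⟨g, Finset.mem_range.2 hg, e⟩
  · intro _ _
    rfl

/-- Jobs whose windows are nested must be at the ends of their windows. -/
theorem nested {G : ℕ} {σ γ : ℕ → ℕ} (hlt : ∀ g < G, γ g < G)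
    (hN : ∀ g < G, ∀ h, min g (σ g) ≤ h → h ≤ max g (σ g) →
      min g (σ g) ≤ σ h ∧ σ h ≤ max g (σ g))
    (hγ : ∀ g < G, min g (σ g) ≤ γ g ∧ γ g ≤ max g (σ g))
    (hinj : ∀ g < G, ∀ h < G, γ g = γ h → g = h) :
    ∀ g < G, γ g = g ∨ γ g = σ g := by
  set w : ℕ → ℕ := fun g => max g (σ g) - min g (σ g) with hw
  have hle : ∀ g ∈ Finset.range G, w (γ g) ≤ w g := by
    intro g hg
    have hg := Finset.mem_range.1 hg
    have h1 := hN g hg (γ g) (hγ g hg).1 (hγ g hg).2
    have h2 := hγ g hg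
    simp only [hw]
    omega
  have heq := (Finset.sum_eq_sum_iff_of_le hle).1 (sum_perm hlt hinj w)
  intro g hg
  have h0 := heq g (Finset.mem_range.2 hg)
  have h1 := hN g hg (γ g) (hγ g hg).1 (hγ g hg).2
  have h2 := hγ g hg
  simp only [hw] at h0
  omega

/-- The bit of the gap `h`: the job in it is of type `E`. -/
def Bit (G : ℕ) (γ : ℕ → ℕ) (E : ℕ → Prop) (h : ℕ) : Prop := ∃ g < G, γ g = h ∧ E g

theorem bit_swap {G : ℕ} {σ γ : ℕ → ℕ} {E : ℕ → Prop} (hσ : ∀ g < G, σ g < G)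
    (hσσ : ∀ g < G, σ (σ g) = g) (hE : ∀ g < G, (E (σ g) ↔ ¬ E g)) (hlt : ∀ g < G, γ g < G)
    (hinj : ∀ g < G, ∀ h < G, γ g = γ h → g = h)
    (hγ : ∀ g < G, γ g = g ∨ γ g = σ g) {h : ℕ} (hh : h < G) :
    Bit G γ E (σ h) ↔ ¬ Bit G γ E h := by
  obtain ⟨g, hg, e⟩ := surj_of_inj hlt hinj h hh
  obtain ⟨g', hg', e'⟩ := surj_of_inj hlt hinj (σ h) (hσ h hh)
  have hne : h ≠ σ h := by
    intro heq
    have := hE h hh
    rw [← heq] at this
    exact iff_not_self this
  have h1 : g = h ∨ g = σ h := by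
    rcases hγ g hg with h2 | h2
    · left; omega
    · right
      have := hσσ g hg
      rw [← h2, e] at this
      exact this.symm
  have h1' : g' = σ h ∨ g' = h := by
    rcases hγ g' hg' with h2 | h2
    · left; omega
    · right
      have := hσσ g' hg'
      rw [← h2, e', hσσ h hh] at this
      exact this.symm
  have hb : Bit G γ E h ↔ E g := by
    constructor
    · rintro ⟨a, ha, h3, h4⟩
      rwa [← hinj a ha g hg (by omega)]
    · intro h3
      exact ⟨g, hg, e, h3⟩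
  have hb' : Bit G γ E (σ h) ↔ E g' := by
    constructor
    · rintro ⟨a, ha, h3, h4⟩
      rwa [← hinj a ha g' hg' (by omega)]
    · intro h3
      exact ⟨g', hg', e', h3⟩
  have hgg : g ≠ g' := by
    intro h3
    rw [h3] at e
    omega
  rw [hb, hb']
  rcases h1 with rfl | rfl
  · have : g' = σ g := by
      rcases h1' with h | h
      · exact h
      · exact absurd h.symm hgg
    rw [this]
    exact hE g hh
  · have : g' = h := by
      rcases h1' with h | h
      · exact absurd h.symm hgg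
      · exact h
    rw [this, hE h hh, not_not]

theorem bit_eq {G : ℕ} {γ γ' : ℕ → ℕ} {E : ℕ → Prop} (hlt : ∀ g < G, γ g < G)
    (hinj : ∀ g < G, ∀ h < G, γ g = γ h → g = h) (hlt' : ∀ g < G, γ' g < G)
    (hinj' : ∀ g < G, ∀ h < G, γ' g = γ' h → g = h)
    (himp : ∀ h < G, Bit G γ' E h → Bit G γ E h) {h : ℕ} (hh : h < G) :
    Bit G γ E h ↔ Bit G γ' E h := by
  classical
  have key : ∀ δ : ℕ → ℕ, (∀ g < G, δ g < G) → (∀ g < G, ∀ h < G, δ g = δ h → g = h) →
      ((Finset.range G).filter (Bit G δ E)).card = ((Finset.range G).filter E).card := by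
    intro δ h1 h2
    have : (Finset.range G).filter (Bit G δ E) = ((Finset.range G).filter E).image δ := by
      ext x
      simp only [Finset.mem_filter, Finset.mem_range, Finset.mem_image, Bit]
      constructor
      · rintro ⟨_, g, hg, h3, h4⟩
        exact ⟨g, ⟨hg, h4⟩, h3⟩
      · rintro ⟨g, ⟨hg, h4⟩, rfl⟩
        exact ⟨h1 g hg, g, hg, rfl, h4⟩
    rw [this, Finset.card_image_of_injOn]
    intro a ha b hb hab
    simp only [Finset.coe_filter, Finset.mem_range, Set.mem_setOf_eq] at ha hb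
    exact h2 a ha.1 b hb.1 hab
  have hsub : (Finset.range G).filter (Bit G γ' E) ⊆ (Finset.range G).filter (Bit G γ E) := by
    intro x hx
    rw [Finset.mem_filter, Finset.mem_range] at hx ⊢
    exact ⟨hx.1, himp x hx.1 hx.2⟩
  have heq := Finset.eq_of_subset_of_card_le hsub (by rw [key γ hlt hinj, key γ' hlt' hinj'])
  have : h ∈ (Finset.range G).filter (Bit G γ' E) ↔ h ∈ (Finset.range G).filter (Bit G γ E) := by
    rw [heq]
  simp only [Finset.mem_filter, Finset.mem_range, hh, true_and] at this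
  exact this.symm

/-! ## The two pairings -/

/-- The pairing in the blocks `[2 m b, 2 m (b + 1))`. -/
def s1 (m g : ℕ) : ℕ := 2 * m * (g / (2 * m)) + (2 * m - 1 - g % (2 * m))

/-- The pairing in the shifted blocks. -/
def s2 (m s g : ℕ) : ℕ :=
  if m ≤ g ∧ g + m < 2 * m * s then
    m + (2 * m * ((g - m) / (2 * m)) + (2 * m - 1 - (g - m) % (2 * m)))
  else 2 * m * s - 1 - g

/-- The gap is in the first half of its block. -/
def Ev (m g : ℕ) : Prop := g % (2 * m) < m

instance (m : ℕ) : DecidablePred (Ev m) := fun _ => inferInstanceAs (Decidable (_ < _))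

theorem dm (N b a : ℕ) (h : a < N) : (N * b + a) / N = b ∧ (N * b + a) % N = a := by
  have hN : 0 < N := by omega
  constructor
  · rw [Nat.mul_add_div hN, Nat.div_eq_of_lt h, add_zero]
  · rw [Nat.mul_add_mod, Nat.mod_eq_of_lt h]

theorem s1_eq {m b a : ℕ} (h : a < 2 * m) :
    s1 m (2 * m * b + a) = 2 * m * b + (2 * m - 1 - a) := by
  obtain ⟨h1, h2⟩ := dm (2 * m) b a h
  unfold s1
  rw [h1, h2]

theorem ev_eq {m b a : ℕ} (h : a < 2 * m) : Ev m (2 * m * b + a) ↔ a < m := by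
  unfold Ev
  rw [(dm (2 * m) b a h).2]

theorem s1_cases {m : ℕ} (hm : 0 < m) (g : ℕ) :
    ∃ b a, a < 2 * m ∧ g = 2 * m * b + a :=
  ⟨g / (2 * m), g % (2 * m), Nat.mod_lt _ (by omega), (Nat.div_add_mod g (2 * m)).symm⟩

theorem block_lt {m s b a : ℕ} (ha : a < 2 * m) (h : 2 * m * b + a < 2 * m * s) :
    b < s ∧ 2 * m * b + 2 * m ≤ 2 * m * s := by
  have h1 : b < s := by
    by_contra hcon
    have := Nat.mul_le_mul_left (2 * m) (not_lt.1 hcon)
    omega
  refine ⟨h1, ?_⟩
  have := Nat.mul_le_mul_left (2 * m) (Nat.succ_le_of_lt h1)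
  rw [Nat.mul_succ] at this
  exact this

theorem same_block {m b c a a' : ℕ} (ha : a < 2 * m) (ha' : a' < 2 * m)
    (h : 2 * m * b + a = 2 * m * c + a') : b = c ∧ a = a' := by
  obtain ⟨h1, h2⟩ := dm (2 * m) b a ha
  obtain ⟨h3, h4⟩ := dm (2 * m) c a' ha'
  rw [h] at h1 h2
  omega

/-- An index in a block is in no other block. -/
theorem block_mem {m b c a : ℕ} (ha : a < 2 * m) (h1 : 2 * m * b ≤ 2 * m * c + a)
    (h2 : 2 * m * c + a < 2 * m * b + 2 * m) : b = c := by
  have : 2 * m * b + (2 * m * c + a - 2 * m * b) = 2 * m * c + a := by omega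
  exact (same_block (by omega) ha this).1

theorem s1_lt {m s g : ℕ} (hm : 0 < m) (hg : g < 2 * m * s) : s1 m g < 2 * m * s := by
  obtain ⟨b, a, ha, rfl⟩ := s1_cases hm g
  rw [s1_eq ha]
  have := (block_lt ha hg).2
  omega

theorem s1_s1 {m g : ℕ} (hm : 0 < m) : s1 m (s1 m g) = g := by
  obtain ⟨b, a, ha, rfl⟩ := s1_cases hm g
  rw [s1_eq ha, s1_eq (by omega)]
  omega

theorem ev_s1 {m g : ℕ} (hm : 0 < m) : Ev m (s1 m g) ↔ ¬ Ev m g := by
  obtain ⟨b, a, ha, rfl⟩ := s1_cases hm g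
  rw [s1_eq ha, ev_eq ha, ev_eq (by omega)]
  omega

theorem s1_nested {m g h : ℕ} (hm : 0 < m) (h1 : min g (s1 m g) ≤ h)
    (h2 : h ≤ max g (s1 m g)) : min g (s1 m g) ≤ s1 m h ∧ s1 m h ≤ max g (s1 m g) := by
  obtain ⟨b, a, ha, rfl⟩ := s1_cases hm g
  obtain ⟨c, d, hd, rfl⟩ := s1_cases hm h
  rw [s1_eq ha] at h1 h2 ⊢
  have : b = c := block_mem hd (by omega) (by omega)
  subst this
  rw [s1_eq hd]
  omega

/-- The cases for the second pairing. -/
theorem s2_cases {m s g : ℕ} (hm : 0 < m) (hg : g < 2 * m * s) :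
    (∃ b a, a < 2 * m ∧ g = m + (2 * m * b + a) ∧ m + (2 * m * b + 2 * m) + m ≤ 2 * m * s ∧
      s2 m s g = m + (2 * m * b + (2 * m - 1 - a))) ∨
    ((g < m ∨ 2 * m * s ≤ g + m) ∧ s2 m s g = 2 * m * s - 1 - g) := by
  by_cases h : m ≤ g ∧ g + m < 2 * m * s
  · left
    obtain ⟨b, a, ha, hba⟩ := s1_cases hm (g - m)
    have hs : 1 ≤ s := by
      by_contra hcon
      have : s = 0 := by omega
      subst this
      omega
    obtain ⟨s', rfl⟩ : ∃ s', s = s' + 1 := ⟨s - 1, by omega⟩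
    rw [Nat.mul_succ] at h hg ⊢
    have h3 : 2 * m * b + a < 2 * m * s' := by omega
    have h4 := (block_lt ha h3).2
    refine ⟨b, a, ha, by omega, by omega, ?_⟩
    unfold s2
    rw [Nat.mul_succ, if_pos h, hba, (dm (2 * m) b a ha).1, (dm (2 * m) b a ha).2]
  · right
    refine ⟨by omega, ?_⟩
    unfold s2
    rw [if_neg h]

theorem s2_inner {m s b a : ℕ} (ha : a < 2 * m) (h : m + (2 * m * b + 2 * m) + m ≤ 2 * m * s) :
    s2 m s (m + (2 * m * b + a)) = m + (2 * m * b + (2 * m - 1 - a)) := by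
  unfold s2
  rw [if_pos (by omega), Nat.add_sub_cancel_left, (dm (2 * m) b a ha).1, (dm (2 * m) b a ha).2]

theorem s2_outer {m s g : ℕ} (h : g < m ∨ 2 * m * s ≤ g + m) :
    s2 m s g = 2 * m * s - 1 - g := by
  unfold s2
  rw [if_neg (by omega)]

theorem s2_lt {m s g : ℕ} (hm : 0 < m) (hg : g < 2 * m * s) : s2 m s g < 2 * m * s := by
  rcases s2_cases hm hg with ⟨b, a, ha, rfl, h1, h2⟩ | ⟨h1, h2⟩
  · rw [h2]; omega
  · rw [h2]; omega

theorem s2_s2 {m s g : ℕ} (hm : 0 < m) (hg : g < 2 * m * s) : s2 m s (s2 m s g) = g := by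
  rcases s2_cases hm hg with ⟨b, a, ha, rfl, h1, h2⟩ | ⟨h1, h2⟩
  · rw [h2, s2_inner (by omega) h1]
    omega
  · rw [h2, s2_outer (by omega)]
    omega

theorem ev_shift {m b a : ℕ} (ha : a < 2 * m) : Ev m (m + (2 * m * b + a)) ↔ m ≤ a := by
  by_cases h : a < m
  · have e : m + (2 * m * b + a) = 2 * m * b + (m + a) := by ring
    rw [e, ev_eq (by omega)]
    omega
  · have e : m + (2 * m * b + a) = 2 * m * (b + 1) + (a - m) := by
      rw [Nat.mul_succ]
      omega
    rw [e, ev_eq (by omega)]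
    omega

theorem ev_last {m s g : ℕ} (hm : 0 < m) (hg : g < 2 * m * s) (h : 2 * m * s ≤ g + 2 * m) :
    Ev m g ↔ g + m < 2 * m * s := by
  have hs : 1 ≤ s := by
    by_contra hcon
    have : s = 0 := by omega
    subst this
    omega
  obtain ⟨s', rfl⟩ : ∃ s', s = s' + 1 := ⟨s - 1, by omega⟩
  rw [Nat.mul_succ] at *
  have e : g = 2 * m * s' + (g - 2 * m * s') := by omega
  rw [e, ev_eq (by omega)]
  omega

theorem ev_first {m g : ℕ} (h : g < m) : Ev m g := by
  unfold Ev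
  exact lt_of_le_of_lt (Nat.mod_le _ _) h

theorem ev_s2 {m s g : ℕ} (hm : 0 < m) (hg : g < 2 * m * s) : Ev m (s2 m s g) ↔ ¬ Ev m g := by
  rcases s2_cases hm hg with ⟨b, a, ha, rfl, h1, h2⟩ | ⟨h1, h2⟩
  · rw [h2, ev_shift ha, ev_shift (by omega)]
    omega
  · rw [h2]
    rcases h1 with h1 | h1
    · have h3 : Ev m g := ev_first h1
      have hs : 2 * m ≤ 2 * m * s := by
        rcases s with _ | s
        · omega
        · rw [Nat.mul_succ]; omega
      rw [ev_last (s := s) hm (by omega) (by omega)]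
      simp only [h3, not_true_eq_false, iff_false]
      omega
    · have h3 : Ev m (2 * m * s - 1 - g) := ev_first (by omega)
      have h4 := ev_last hm hg (by omega)
      simp only [h3, true_iff, h4]
      omega

theorem s2_nested {m s g h : ℕ} (hm : 0 < m) (hg : g < 2 * m * s) (h1 : min g (s2 m s g) ≤ h)
    (h2 : h ≤ max g (s2 m s g)) :
    min g (s2 m s g) ≤ s2 m s h ∧ s2 m s h ≤ max g (s2 m s g) := by
  have hh : h < 2 * m * s := by
    have := s2_lt hm hg
    omega
  rcases s2_cases hm hg with ⟨b, a, ha, rfl, h3, h4⟩ | ⟨h3, h4⟩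
  · rcases s2_cases hm hh with ⟨c, d, hd, rfl, h5, h6⟩ | ⟨h5, h6⟩
    · rw [h4] at h1 h2 ⊢
      have : b = c := block_mem hd (by omega) (by omega)
      subst this
      rw [h6]
      omega
    · omega
  · rcases s2_cases hm hh with ⟨c, d, hd, rfl, h5, h6⟩ | ⟨h5, h6⟩
    · omega
    · omega

/-- The variable of a gap. -/
def vr (m g : ℕ) : ℕ := if g % (2 * m) < m then g % (2 * m) else 2 * m - 1 - g % (2 * m)

theorem vr_eq {m b a : ℕ} (h : a < 2 * m) :
    vr m (2 * m * b + a) = if a < m then a else 2 * m - 1 - a := by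
  unfold vr
  rw [(dm (2 * m) b a h).2]

theorem vr_lt {m g : ℕ} (hm : 0 < m) : vr m g < m := by
  obtain ⟨b, a, ha, rfl⟩ := s1_cases hm g
  rw [vr_eq ha]
  split_ifs <;> omega

theorem vr_s1 {m g : ℕ} (hm : 0 < m) : vr m (s1 m g) = vr m g := by
  obtain ⟨b, a, ha, rfl⟩ := s1_cases hm g
  rw [s1_eq ha, vr_eq ha, vr_eq (by omega)]
  split_ifs <;> omega

theorem vr_shift {m b a : ℕ} (ha : a < 2 * m) :
    vr m (m + (2 * m * b + a)) = if a < m then m - 1 - a else a - m := by
  by_cases h : a < m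
  · have e : m + (2 * m * b + a) = 2 * m * b + (m + a) := by ring
    rw [e, vr_eq (by omega), if_neg (by omega), if_pos h]
    omega
  · have e : m + (2 * m * b + a) = 2 * m * (b + 1) + (a - m) := by
      rw [Nat.mul_succ]
      omega
    rw [e, vr_eq (by omega), if_pos (by omega), if_neg h]

theorem vr_last {m s g : ℕ} (hm : 0 < m) (hg : g < 2 * m * s) (h : 2 * m * s ≤ g + m) :
    vr m g = 2 * m * s - 1 - g := by
  have hs : 1 ≤ s := by
    by_contra hcon
    have : s = 0 := by omega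
    subst this
    omega
  obtain ⟨s', rfl⟩ : ∃ s', s = s' + 1 := ⟨s - 1, by omega⟩
  rw [Nat.mul_succ] at *
  have e : g = 2 * m * s' + (g - 2 * m * s') := by omega
  have h1 := vr_eq (m := m) (b := s') (a := g - 2 * m * s') (by omega)
  rw [← e, if_neg (by omega)] at h1
  omega

theorem vr_first {m g : ℕ} (h : g < m) : vr m g = g := by
  unfold vr
  rw [Nat.mod_eq_of_lt (by omega), if_pos h]

theorem vr_s2 {m s g : ℕ} (hm : 0 < m) (hg : g < 2 * m * s) : vr m (s2 m s g) = vr m g := by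
  rcases s2_cases hm hg with ⟨b, a, ha, rfl, h1, h2⟩ | ⟨h1, h2⟩
  · rw [h2, vr_shift ha, vr_shift (by omega)]
    split_ifs <;> omega
  · rw [h2]
    have hs : 2 * m ≤ 2 * m * s := by
      rcases s with _ | s
      · omega
      · rw [Nat.mul_succ]; omega
    rcases h1 with h1 | h1
    · rw [vr_first h1, vr_last (s := s) hm (by omega) (by omega)]
      omega
    · rw [vr_last hm hg h1, vr_first (by omega)]

end Pool.Agent.H741R2.LJ
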