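import Pool.Agent.NPC.Classes

/-!
# Minimising the number of late jobs: definitions
-/

namespace Pool.Agent.H741R2.LJ

open Pool.Agent.NPC

/-- `S` (the start times) is a schedule on one machine, for `n` jobs with release dates `r` and
processing times `p`: no job starts before its release date, and no two jobs overlap. -/
structure IsSchedule {n : ℕ} (r p : Fin n → ℕ) (S : Fin n → ℝ) : Prop where
  /-- release dates -/
  release : ∀ j, (r j : ℝ) ≤ S j
  /-- one job at a time, without preemption -/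
  disjoint : ∀ i j, i ≠ j → S i + p i ≤ S j ∨ S j + p j ≤ S i

/-- The job `j` is late: it is completed after its due date. -/
def Late {n : ℕ} (p : Fin n → ℕ) (d : Fin n → ℤ) (S : Fin n → ℝ) (j : Fin n) : Prop :=
  (d j : ℝ) < S j + p j

/-- The decision version of `1 | r_j, p_j ≤ c | ∑ U_j`.  An instance is a list of jobs
`(r_j, p_j, d_j)` with `1 ≤ p_j ≤ c` and a bound `k`; is there a schedule with at most `k` late
jobs?  (Numbers are written in binary.) -/
def LateJobs (c : ℕ) (I : List (ℕ × ℕ × ℤ) × ℕ) : Prop :=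
  (∀ j ∈ I.1, 1 ≤ j.2.1 ∧ j.2.1 ≤ c) ∧
    ∃ S : Fin I.1.length → ℝ, IsSchedule (fun j => I.1[j].1) (fun j => I.1[j].2.1) S ∧
      {j | Late (fun j => I.1[j].2.1) (fun j => I.1[j].2.2) S j}.ncard ≤ I.2

open Classical in
/-- The decision version of `1 | r_j, p_j ≤ c | ∑ w_j U_j`.  An instance is a list of jobs
`(r_j, p_j, d_j, w_j)` with `1 ≤ p_j ≤ c` and a bound `k`; is there a schedule such that the total
weight of the late jobs is at most `k`?  (Numbers are written in binary.) -/
def WeightedLateJobs (c : ℕ) (I : List (ℕ × ℕ × ℤ × ℕ) × ℕ) : Prop :=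
  (∀ j ∈ I.1, 1 ≤ j.2.1 ∧ j.2.1 ≤ c) ∧
    ∃ S : Fin I.1.length → ℝ, IsSchedule (fun j => I.1[j].1) (fun j => I.1[j].2.1) S ∧
      ∑ j with Late (fun j => I.1[j].2.1) (fun j => I.1[j].2.2.1) S j, I.1[j].2.2.2 ≤ I.2

end Pool.Agent.H741R2.LJ
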