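import Pool.Agent.H741R2.LJDefs
import Pool.Agent.H741R2.LJSched
import Pool.Agent.H671R2.PolyAuto
import Pool.Agent.H687R2.IntPoly
import Pool.Agent.NPC.Sat2

/-!
# The reduction from 3SAT to the minimisation of the number of late jobs
-/

namespace Pool.Agent.H741R2.LJ

open Pool.Agent.NPC

/-! ## Schedules and their integral parts -/

/-- The jobs of a list of keys can be scheduled without late jobs iff there are integral start
times. -/
theorem all_iff {α : Type} (l : List α) (hl : l.Nodup) (r p d : α → ℕ) (hp : ∀ x, 0 < p x) :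
    (∃ S : Fin l.length → ℝ, IsSchedule (fun j => r l[j]) (fun j => p l[j]) S ∧
      ∀ j, ¬ Late (fun j => p l[j]) (fun j => (d l[j] : ℤ)) S j) ↔
    ∃ t : α → ℕ, (∀ x ∈ l, r x ≤ t x ∧ t x + p x ≤ d x) ∧
      ∀ x ∈ l, ∀ y ∈ l, x ≠ y → t x + p x ≤ t y ∨ t y + p y ≤ t x := by
  classical
  constructor
  · rintro ⟨S, hS, hL⟩
    refine ⟨fun x => if h : x ∈ l then ⌊S ⟨l.idxOf x, List.idxOf_lt_length_iff.2 h⟩⌋₊ else 0,
      ?_, ?_⟩
    · intro x hx
      simp only [dif_pos hx]
      set j : Fin l.length := ⟨l.idxOf x, List.idxOf_lt_length_iff.2 hx⟩ with hj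
      have hjx : l[j] = x := List.getElem_idxOf _
      have h1 := hS.release j
      have h2 := hL j
      unfold Late at h2
      simp only [hjx] at h1 h2
      have h0 : (0 : ℝ) ≤ S j := le_trans (Nat.cast_nonneg _) h1
      rw [not_lt, Int.cast_natCast] at h2
      refine ⟨Nat.le_floor h1, ?_⟩
      rw [← Nat.floor_add_natCast h0]
      have := Nat.floor_le_floor h2
      rwa [Nat.floor_natCast] at this
    · intro x hx y hy hxy
      simp only [dif_pos hx, dif_pos hy]
      set j : Fin l.length := ⟨l.idxOf x, List.idxOf_lt_length_iff.2 hx⟩ with hj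
      set k : Fin l.length := ⟨l.idxOf y, List.idxOf_lt_length_iff.2 hy⟩ with hk
      have hjx : l[j] = x := List.getElem_idxOf _
      have hky : l[k] = y := List.getElem_idxOf _
      have hjk : j ≠ k := by
        intro h
        apply hxy
        exact hjx.symm.trans ((congrArg (fun i : Fin l.length => l[i]) h).trans hky)
      have h0 : (0 : ℝ) ≤ S j := le_trans (Nat.cast_nonneg _) (hS.release j)
      have h0' : (0 : ℝ) ≤ S k := le_trans (Nat.cast_nonneg _) (hS.release k)
      have h1 := hS.disjoint j k hjk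
      simp only [hjx, hky] at h1
      rcases h1 with h1 | h1
      · left
        rw [← Nat.floor_add_natCast h0]
        exact Nat.floor_le_floor h1
      · right
        rw [← Nat.floor_add_natCast h0']
        exact Nat.floor_le_floor h1
  · rintro ⟨t, h1, h2⟩
    refine ⟨fun j => (t l[j] : ℝ), ⟨fun j => ?_, fun i j hij => ?_⟩, fun j => ?_⟩
    · exact_mod_cast (h1 _ (List.getElem_mem _)).1
    · have h3 : l[i] ≠ l[j] := fun h =>
        hij (Fin.ext ((List.Nodup.getElem_inj_iff hl).1 h))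
      have := h2 _ (List.getElem_mem i.2) _ (List.getElem_mem j.2) h3
      rcases this with h | h
      · left; exact_mod_cast h
      · right; exact_mod_cast h
    · unfold Late
      rw [not_lt]
      have := (h1 _ (List.getElem_mem j.2)).2
      have h3 : ((t l[j] + p l[j] : ℕ) : ℝ) ≤ ((d l[j] : ℕ) : ℝ) := by exact_mod_cast this
      rw [Int.cast_natCast]
      rw [Nat.cast_add] at h3
      exact h3

theorem late_iff {c : ℕ} {α : Type} (l : List α) (hl : l.Nodup) (r p d : α → ℕ)
    (hp : ∀ x, 0 < p x) (hc : ∀ x, p x ≤ c) :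
    LateJobs c (l.map (fun x => (r x, p x, (d x : ℤ))), 0) ↔
    ∃ t : α → ℕ, (∀ x ∈ l, r x ≤ t x ∧ t x + p x ≤ d x) ∧
      ∀ x ∈ l, ∀ y ∈ l, x ≠ y → t x + p x ≤ t y ∨ t y + p y ≤ t x := by
  rw [← all_iff l hl r p d hp]
  unfold LateJobs
  have hlen : (l.map (fun x => (r x, p x, (d x : ℤ)))).length = l.length := List.length_map _
  have h1 : ∀ j ∈ l.map (fun x => (r x, p x, (d x : ℤ))), 1 ≤ j.2.1 ∧ j.2.1 ≤ c := by
    intro j hj
    rw [List.mem_map] at hj
    obtain ⟨x, _, rfl⟩ := hj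
    exact ⟨hp x, hc x⟩
  constructor
  · rintro ⟨_, S, hS, hL⟩
    refine ⟨fun j => S (Fin.cast hlen.symm j), ⟨fun j => ?_, fun i j hij => ?_⟩, fun j hj => ?_⟩
    · have := hS.release (Fin.cast hlen.symm j)
      simpa using this
    · have := hS.disjoint (Fin.cast hlen.symm i) (Fin.cast hlen.symm j)
        (fun h => hij (by simpa using h))
      simpa using this
    · simp only [nonpos_iff_eq_zero] at hL
      rw [Set.ncard_eq_zero (Set.toFinite _), Set.eq_empty_iff_forall_notMem] at hL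
      apply hL (Fin.cast hlen.symm j)
      simp only [Set.mem_setOf_eq, Late] at hj ⊢
      simpa using hj
  · rintro ⟨S, hS, hL⟩
    refine ⟨h1, fun j => S (Fin.cast hlen j), ⟨fun j => ?_, fun i j hij => ?_⟩, ?_⟩
    · have := hS.release (Fin.cast hlen j)
      simpa using this
    · have := hS.disjoint (Fin.cast hlen i) (Fin.cast hlen j)
        (fun h => hij (by simpa using h))
      simpa using this
    · simp only [nonpos_iff_eq_zero]
      rw [Set.ncard_eq_zero (Set.toFinite _), Set.eq_empty_iff_forall_notMem]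
      intro j hj
      apply hL (Fin.cast hlen j)
      simp only [Set.mem_setOf_eq, Late] at hj ⊢
      simpa using hj

theorem wlate_iff {c : ℕ} {α : Type} (l : List α) (hl : l.Nodup) (r p d : α → ℕ)
    (hp : ∀ x, 0 < p x) (hc : ∀ x, p x ≤ c) :
    WeightedLateJobs c (l.map (fun x => (r x, p x, (d x : ℤ), 1)), 0) ↔
    ∃ t : α → ℕ, (∀ x ∈ l, r x ≤ t x ∧ t x + p x ≤ d x) ∧
      ∀ x ∈ l, ∀ y ∈ l, x ≠ y → t x + p x ≤ t y ∨ t y + p y ≤ t x := by
  classical
  rw [← all_iff l hl r p d hp]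
  unfold WeightedLateJobs
  have hlen : (l.map (fun x => (r x, p x, (d x : ℤ), 1))).length = l.length := List.length_map _
  have h1 : ∀ j ∈ l.map (fun x => (r x, p x, (d x : ℤ), 1)), 1 ≤ j.2.1 ∧ j.2.1 ≤ c := by
    intro j hj
    rw [List.mem_map] at hj
    obtain ⟨x, _, rfl⟩ := hj
    exact ⟨hp x, hc x⟩
  constructor
  · rintro ⟨_, S, hS, hL⟩
    refine ⟨fun j => S (Fin.cast hlen.symm j), ⟨fun j => ?_, fun i j hij => ?_⟩, fun j hj => ?_⟩
    · have := hS.release (Fin.cast hlen.symm j)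
      simpa using this
    · have := hS.disjoint (Fin.cast hlen.symm i) (Fin.cast hlen.symm j)
        (fun h => hij (by simpa using h))
      simpa using this
    · simp only [nonpos_iff_eq_zero] at hL
      rw [Finset.sum_eq_zero_iff] at hL
      have := hL (Fin.cast hlen.symm j) (by
        simp only [Finset.mem_filter, Finset.mem_univ, true_and, Late] at hj ⊢
        simpa using hj)
      simp at this
  · rintro ⟨S, hS, hL⟩
    refine ⟨h1, fun j => S (Fin.cast hlen j), ⟨fun j => ?_, fun i j hij => ?_⟩, ?_⟩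
    · have := hS.release (Fin.cast hlen j)
      simpa using this
    · have := hS.disjoint (Fin.cast hlen i) (Fin.cast hlen j)
        (fun h => hij (by simpa using h))
      simpa using this
    · simp only [nonpos_iff_eq_zero]
      rw [Finset.sum_eq_zero_iff]
      intro j hj
      exfalso
      apply hL (Fin.cast hlen j)
      simp only [Finset.mem_filter, Finset.mem_univ, true_and, Late] at hj ⊢
      simpa using hj

/-! ## The formula -/

/-- A clause. -/
abbrev Cl := Lit ℕ × Lit ℕ × Lit ℕ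

/-- The list of the variables. -/
def vars (φ : List Cl) : List ℕ := φ.flatMap (fun c => [c.1.2, c.2.1.2, c.2.2.2])

/-- The number of gaps in a segment. -/
def mm (φ : List Cl) : ℕ := 3 * φ.length + 1

/-- The position of the gap of a literal in a block. -/
noncomputable def lp (φ : List Cl) (l : Lit ℕ) : ℕ :=
  if l.1 = true then index (vars φ) l.2 else 2 * mm φ - 1 - index (vars φ) l.2

/-- Is the gap `g` a clause gap? -/
noncomputable def cg (φ : List Cl) (g : ℕ) : Bool :=
  decide (g % (2 * mm φ) = lp φ (φ.getD (g / (2 * mm φ)) ((true, 0), (true, 0), (true, 0))).1) ||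
  (decide (g % (2 * mm φ) =
    lp φ (φ.getD (g / (2 * mm φ)) ((true, 0), (true, 0), (true, 0))).2.1) ||
  decide (g % (2 * mm φ) =
    lp φ (φ.getD (g / (2 * mm φ)) ((true, 0), (true, 0), (true, 0))).2.2))

theorem vars_length (φ : List Cl) : (vars φ).length = 3 * φ.length := by
  induction φ with
  | nil => rfl
  | cons e E ih =>
    unfold vars at *
    rw [List.flatMap_cons, List.length_append, ih]
    simp
    omega

theorem idx_lt {φ : List Cl} {v : ℕ} (h : v ∈ vars φ) : index (vars φ) v < mm φ := by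
  have := index_lt h
  rw [vars_length] at this
  unfold mm
  omega

theorem cg_eq {φ : List Cl} {r a : ℕ} (hr : r < φ.length) (ha : a < 2 * mm φ) :
    cg φ (2 * mm φ * r + a) = true ↔
      a = lp φ φ[r].1 ∨ a = lp φ φ[r].2.1 ∨ a = lp φ φ[r].2.2 := by
  unfold cg
  rw [(dm _ r a ha).1, (dm _ r a ha).2, List.getD_eq_getElem?_getD, List.getElem?_eq_getElem hr,
    Option.getD_some]
  simp only [Bool.or_eq_true, decide_eq_true_eq]

/-- The satisfying assignments, in terms of gaps. -/
theorem satG_iff (φ : List Cl) : SatG (mm φ) φ.length (cg φ) ↔ SAT3 φ := by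
  have hmm : 0 < mm φ := by unfold mm; omega
  have hmem : ∀ r (hr : r < φ.length), φ[r].1.2 ∈ vars φ ∧ φ[r].2.1.2 ∈ vars φ ∧
      φ[r].2.2.2 ∈ vars φ := by
    intro r hr
    refine ⟨?_, ?_, ?_⟩ <;> exact List.mem_flatMap.2 ⟨_, List.getElem_mem hr, by simp⟩
  -- a literal is true iff its gap has bit 1
  constructor
  · rintro ⟨τ, h⟩
    refine ⟨fun v => τ (index (vars φ) v), fun c hc => ?_⟩
    obtain ⟨r, hr, rfl⟩ := List.getElem_of_mem hc
    obtain ⟨h1, h2, h3⟩ := hmem r hr
    have key : ∀ l : Lit ℕ, l.2 ∈ vars φ → ∀ i < mm φ, (τ i = true ∧ i = lp φ l) ∨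
        (τ i = false ∧ 2 * mm φ - 1 - i = lp φ l) → τ (index (vars φ) l.2) = l.1 := by
      rintro ⟨b, v⟩ hv i hi hh
      have hlt := idx_lt hv
      unfold lp at hh
      simp only at hh hlt ⊢
      cases b with
      | true =>
        simp only [if_true] at hh
        rcases hh with ⟨h4, h5⟩ | ⟨h4, h5⟩
        · rw [← h5]; exact h4
        · omega
      | false =>
        simp only [Bool.false_eq_true, if_false] at hh
        rcases hh with ⟨h4, h5⟩ | ⟨h4, h5⟩
        · omega
        · have : index (vars φ) v = i := by omega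
          rw [this]; exact h4
    obtain ⟨i, hi, h4⟩ := h r hr
    rw [cg_eq hr (by omega), cg_eq hr (by omega)] at h4
    rcases h4 with ⟨h4, h5 | h5 | h5⟩ | ⟨h4, h5 | h5 | h5⟩
    · exact Or.inl (key _ h1 i hi (Or.inl ⟨h4, h5⟩))
    · exact Or.inr (Or.inl (key _ h2 i hi (Or.inl ⟨h4, h5⟩)))
    · exact Or.inr (Or.inr (key _ h3 i hi (Or.inl ⟨h4, h5⟩)))
    · exact Or.inl (key _ h1 i hi (Or.inr ⟨h4, h5⟩))
    · exact Or.inr (Or.inl (key _ h2 i hi (Or.inr ⟨h4, h5⟩)))
    · exact Or.inr (Or.inr (key _ h3 i hi (Or.inr ⟨h4, h5⟩)))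
  · rintro ⟨τ, h⟩
    refine ⟨fun i => τ ((vars φ)[i]?.getD 0), fun r hr => ?_⟩
    obtain ⟨h1, h2, h3⟩ := hmem r hr
    have key : ∀ l : Lit ℕ, l.2 ∈ vars φ → τ l.2 = l.1 →
        (l = φ[r].1 ∨ l = φ[r].2.1 ∨ l = φ[r].2.2) → ∃ i < mm φ,
        (τ ((vars φ)[i]?.getD 0) = true ∧ cg φ (2 * mm φ * r + i) = true) ∨
        (τ ((vars φ)[i]?.getD 0) = false ∧
          cg φ (2 * mm φ * r + (2 * mm φ - 1 - i)) = true) := by
      rintro ⟨b, v⟩ hv hb hl
      have hlt := idx_lt hv
      simp only at hv hb hlt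
      refine ⟨index (vars φ) v, hlt, ?_⟩
      rw [getElem?_index hv, Option.getD_some, hb, cg_eq hr (by omega), cg_eq hr (by omega)]
      have e : lp φ (b, v) = if b = true then index (vars φ) v else
        2 * mm φ - 1 - index (vars φ) v := rfl
      have hl' : lp φ (b, v) = lp φ φ[r].1 ∨ lp φ (b, v) = lp φ φ[r].2.1 ∨
          lp φ (b, v) = lp φ φ[r].2.2 := by
        rcases hl with h | h | h
        · exact Or.inl (congrArg _ h)
        · exact Or.inr (Or.inl (congrArg _ h))
        · exact Or.inr (Or.inr (congrArg _ h))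
      rw [e] at hl'
      cases b with
      | true =>
        left
        simpa using hl'
      | false =>
        right
        simpa using hl'
    rcases h _ (List.getElem_mem hr) with h4 | h4 | h4
    · exact key _ h1 h4 (Or.inl rfl)
    · exact key _ h2 h4 (Or.inr (Or.inl rfl))
    · exact key _ h3 h4 (Or.inr (Or.inr rfl))

/-! ## The instance -/

/-- The list of the keys. -/
noncomputable def keys (φ : List Cl) : List Ky :=
  (List.range (2 * mm φ * φ.length)).map (fun g => (0, g)) ++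
  ((List.range (2 * mm φ * φ.length)).map (fun g => (1, g)) ++
  ((List.range φ.length).map (fun g => (2, g)) ++
  (((List.range (2 * mm φ * φ.length)).filter (fun g => !cg φ g)).map (fun g => (3, g)) ++
  (List.range (2 * mm φ * φ.length)).map (fun g => (4, g)))))

theorem mem_keys {φ : List Cl} {x : Ky} : x ∈ keys φ ↔ Key (mm φ) φ.length (cg φ) x := by
  obtain ⟨a, g⟩ := x
  unfold keys Key
  simp only [List.mem_append, List.mem_map, List.mem_range, List.mem_filter, Prod.mk.injEq,
    Bool.not_eq_true']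
  constructor
  · rintro (⟨h, h1, h2, h3⟩ | ⟨h, h1, h2, h3⟩ | ⟨h, h1, h2, h3⟩ | ⟨h, h1, h2, h3⟩ |
      ⟨h, h1, h2, h3⟩) <;> subst h3 <;> subst h2
    · exact Or.inl ⟨rfl, h1⟩
    · exact Or.inr (Or.inl ⟨rfl, h1⟩)
    · exact Or.inr (Or.inr (Or.inl ⟨rfl, h1⟩))
    · exact Or.inr (Or.inr (Or.inr (Or.inl ⟨rfl, h1⟩)))
    · exact Or.inr (Or.inr (Or.inr (Or.inr ⟨rfl, h1⟩)))
  · rintro (⟨h1, h2⟩ | ⟨h1, h2⟩ | ⟨h1, h2⟩ | ⟨h1, h2⟩ | ⟨h1, h2⟩) <;> subst h1
    · exact Or.inl ⟨g, h2, rfl, rfl⟩
    · exact Or.inr (Or.inl ⟨g, h2, rfl, rfl⟩)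
    · exact Or.inr (Or.inr (Or.inl ⟨g, h2, rfl, rfl⟩))
    · exact Or.inr (Or.inr (Or.inr (Or.inl ⟨g, h2, rfl, rfl⟩)))
    · exact Or.inr (Or.inr (Or.inr (Or.inr ⟨g, h2, rfl, rfl⟩)))

theorem keys_nodup (φ : List Cl) : (keys φ).Nodup := by
  have hinj : ∀ k : ℕ, Function.Injective (fun g : ℕ => ((k, g) : Ky)) := fun k a b h =>
    congrArg Prod.snd h
  have hm : ∀ (k : ℕ) (l : List ℕ) (x : Ky), x ∈ l.map (fun g => ((k, g) : Ky)) → x.1 = k := by
    intro k l x hx
    rw [List.mem_map] at hx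
    obtain ⟨g, _, rfl⟩ := hx
    rfl
  unfold keys
  rw [List.nodup_append', List.nodup_append', List.nodup_append', List.nodup_append']
  refine ⟨List.nodup_range.map (hinj 0), ⟨List.nodup_range.map (hinj 1),
    ⟨List.nodup_range.map (hinj 2), ⟨(List.nodup_range.filter _).map (hinj 3),
    List.nodup_range.map (hinj 4), ?_⟩, ?_⟩, ?_⟩, ?_⟩
  · intro x hx hy
    have h1 := hm _ _ _ hx
    have h2 := hm _ _ _ hy
    omega
  · intro x hx hy
    have h1 := hm _ _ _ hx
    rw [List.mem_append] at hy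
    rcases hy with hy | hy <;> have h2 := hm _ _ _ hy <;> omega
  · intro x hx hy
    have h1 := hm _ _ _ hx
    rw [List.mem_append, List.mem_append] at hy
    rcases hy with hy | hy | hy <;> have h2 := hm _ _ _ hy <;> omega
  · intro x hx hy
    have h1 := hm _ _ _ hx
    rw [List.mem_append, List.mem_append, List.mem_append] at hy
    rcases hy with hy | hy | hy | hy <;> have h2 := hm _ _ _ hy <;> omega

/-- The instance. -/
noncomputable def inst (φ : List Cl) : List (ℕ × ℕ × ℤ) × ℕ :=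
  ((keys φ).map (fun x => (rel (mm φ) φ.length x, len (mm φ) x, (due (mm φ) φ.length x : ℤ))), 0)

/-- The weighted instance. -/
noncomputable def instW (φ : List Cl) : List (ℕ × ℕ × ℤ × ℕ) × ℕ :=
  ((keys φ).map (fun x =>
    (rel (mm φ) φ.length x, len (mm φ) x, (due (mm φ) φ.length x : ℤ), 1)), 0)

theorem len_pos (m : ℕ) (x : Ky) : 0 < len m x := by
  unfold len
  split_ifs <;> omega

theorem len_le (m : ℕ) (x : Ky) : len m x ≤ 13 := by
  unfold len
  split_ifs <;> omega

theorem feas_keys (φ : List Cl) :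
    (∃ t : Ky → ℕ, (∀ x ∈ keys φ, rel (mm φ) φ.length x ≤ t x ∧
        t x + len (mm φ) x ≤ due (mm φ) φ.length x) ∧
      ∀ x ∈ keys φ, ∀ y ∈ keys φ, x ≠ y → t x + len (mm φ) x ≤ t y ∨
        t y + len (mm φ) y ≤ t x) ↔ SAT3 φ := by
  rw [← satG_iff, ← feas_iff (by unfold mm; omega)]
  unfold Feas
  simp only [mem_keys]
  constructor
  · rintro ⟨t, h1, h2⟩
    exact ⟨t, h1, fun x y hx hy => h2 x hx y hy⟩
  · rintro ⟨t, h1, h2⟩
    exact ⟨t, h1, fun x hx y hy => h2 x y hx hy⟩

/-- **Correctness of the reduction.** -/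
theorem inst_correct {c : ℕ} (hc : 13 ≤ c) (φ : List Cl) : SAT3 φ ↔ LateJobs c (inst φ) := by
  unfold inst
  rw [late_iff _ (keys_nodup φ) _ _ _ (len_pos _) (fun x => (len_le _ x).trans hc), feas_keys]

theorem instW_correct {c : ℕ} (hc : 13 ≤ c) (φ : List Cl) :
    SAT3 φ ↔ WeightedLateJobs c (instW φ) := by
  unfold instW
  rw [wlate_iff _ (keys_nodup φ) _ _ _ (len_pos _) (fun x => (len_le _ x).trans hc), feas_keys]

end Pool.Agent.H741R2.LJ
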