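import Pool.Agent.H741R2.LJDefs
import Pool.Agent.H557R2.FptDefs

/-!
# Minimising the number of late jobs, parameterized by the largest processing time: definitions
-/

namespace Pool.Agent.H741R2.LW

open Turing Pool.Agent.NPC Pool.Agent.H741R2.LJ Pool.Agent.H557R2.Fpt

/-- The decision version of `1 | r_j | ∑ U_j`.  An instance is a list of jobs `(r_j, p_j, d_j)`
with `1 ≤ p_j` and a bound `k`; is there a schedule with at most `k` late jobs? -/
def Late1 (I : List (ℕ × ℕ × ℤ) × ℕ) : Prop :=
  (∀ j ∈ I.1, 1 ≤ j.2.1) ∧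
    ∃ S : Fin I.1.length → ℝ, IsSchedule (fun j => I.1[j].1) (fun j => I.1[j].2.1) S ∧
      {j | Late (fun j => I.1[j].2.1) (fun j => I.1[j].2.2) S j}.ncard ≤ I.2

open Classical in
/-- The decision version of `1 | r_j | ∑ w_j U_j`.  An instance is a list of jobs
`(r_j, p_j, d_j, w_j)` with `1 ≤ p_j`, `1 ≤ w_j` and a bound `k`; is there a schedule such that the
total weight of the late jobs is at most `k`? -/
def WLate1 (I : List (ℕ × ℕ × ℤ × ℕ) × ℕ) : Prop :=
  (∀ j ∈ I.1, 1 ≤ j.2.1 ∧ 1 ≤ j.2.2.2) ∧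
    ∃ S : Fin I.1.length → ℝ, IsSchedule (fun j => I.1[j].1) (fun j => I.1[j].2.1) S ∧
      ∑ j with Late (fun j => I.1[j].2.1) (fun j => I.1[j].2.2.1) S j, I.1[j].2.2.2 ≤ I.2

/-- The largest processing time of an instance of `1 | r_j | ∑ U_j`. -/
def pmax (I : List (ℕ × ℕ × ℤ) × ℕ) : ℕ := (I.1.map (fun j => j.2.1)).foldr max 0

/-- The largest processing time of an instance of `1 | r_j | ∑ w_j U_j`. -/
def wpmax (I : List (ℕ × ℕ × ℤ × ℕ) × ℕ) : ℕ := (I.1.map (fun j => j.2.1)).foldr max 0

/-- `1 | r_j | ∑ U_j` parameterized by the largest processing time: the pairs of the code of a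
yes-instance (numbers in binary) and its parameter. -/
def pLate : PProblem := {y | ∃ I, y.1 = bits I ∧ y.2 = pmax I ∧ Late1 I}

/-- `1 | r_j | ∑ w_j U_j` parameterized by the largest processing time. -/
def pWLate : PProblem := {y | ∃ I, y.1 = bits I ∧ y.2 = wpmax I ∧ WLate1 I}

open Classical in
/-- A parameterized problem is in (uniform) `XP`: a Turing machine decides whether `(x, k)` is in
it in at most `f k * (|x| + 1) ^ f k` steps, for some computable `f`. -/
def InXP (L : PProblem) : Prop :=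
  ∃ (M : TM2ComputableAux Bool Bool) (f : ℕ → ℕ), Computable f ∧
    ∀ x k, Nonempty (TM2OutputsInTime M.tm ((pcode (x, k)).map M.inputAlphabet.invFun)
      (some ([decide ((x, k) ∈ L)].map M.outputAlphabet.invFun)) (f k * (x.length + 1) ^ f k))

end Pool.Agent.H741R2.LW
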