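import Pool.Agent.H741R2.LWDefs
import Pool.Agent.H741R2.LJPoly
import Pool.Agent.H557R2.Mve.Red
import Pool.Agent.H557R2.Fpt

/-!
# Minimising the number of late jobs, parameterized by the largest processing time: W[1]-hardness
-/

namespace Pool.Agent.H741R2.LW

open Turing Pool.Agent.NPC Pool.Agent.H741R2.LJ Pool.Agent.H557R2.Fpt Pool.Agent.H557R2.Mve
open Pool.Agent.H642R2.TMSim

/-! ## `p-Clique` is in NP -/

/-- `p-Clique` for coded pairs. -/
def CliqueP (y : List Bool × List Unit) : Prop := (y.1, y.2.length) ∈ pClique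

/-- The verification of a clique. -/
def ver (p : (List Bool × List Unit) × List ℕ) : Bool :=
  (findn p.1.1).elim false fun n => decide (p.2.length = p.1.2.length) &&
    (List.range p.2.length).all (fun i => decide (p.2.getD i 0 < n) &&
      (List.range p.2.length).all (fun j => decide (i = j) ||
        adjB n p.1.1 (p.2.getD i 0) (p.2.getD j 0)))

theorem poly_ver : Poly ver := by
  unfold ver
  refine Poly.optElim (poly_findn.comp (Poly.fst (Poly.fst Poly.id))) (NPC.Poly.const _) ?_
  have hu : UPoly (fun p : ((List Bool × List Unit) × List ℕ) × ℕ => p.1.2.length) :=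
    UPoly.length (by fun_prop)
  refine Poly.and (by fun_prop) (Poly.all hu.range (Poly.and (by fun_prop)
    (Poly.all (hu.comp (by fun_prop)).range (Poly.or (by fun_prop) ?_))))
  exact poly_adjB (by fun_prop) (by fun_prop) (by fun_prop) (by fun_prop)


theorem cliqueP_iff (y : List Bool × List Unit) : CliqueP y ↔
    ∃ n, findn y.1 = some n ∧ ∃ u : ℕ → ℕ, (∀ i < y.2.length, u i < n) ∧
      ∀ i < y.2.length, ∀ j < y.2.length, i ≠ j → adjB n y.1 (u i) (u j) = true := by
  unfold CliqueP pClique
  simp only [Set.mem_ofPred_eq]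
  constructor
  · rintro ⟨n, hn, h⟩
    cases hf : findn y.1 with
    | none => exact absurd hn (findn_none hf n)
    | some m =>
      have hm := findn_some hf
      have : n = m := by
        have h1 : n * n = m * m := hn.symm.trans hm
        exact Nat.mul_self_inj.1 h1
      subst this
      exact ⟨n, rfl, not_cliqueFree_iff'.1 h⟩
  · rintro ⟨n, hf, h⟩
    exact ⟨n, findn_some hf, not_cliqueFree_iff'.2 h⟩

theorem ver_iff (y : List Bool × List Unit) (w : List ℕ) : ver (y, w) = true ↔
    ∃ n, findn y.1 = some n ∧ w.length = y.2.length ∧ (∀ i < w.length, w.getD i 0 < n) ∧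
      ∀ i < w.length, ∀ j < w.length, i ≠ j → adjB n y.1 (w.getD i 0) (w.getD j 0) = true := by
  unfold ver
  cases hf : findn y.1 with
  | none => simp
  | some n =>
    simp only [Option.elim, Bool.and_eq_true, decide_eq_true_eq, List.all_eq_true, List.mem_range,
      Bool.or_eq_true, Option.some.injEq, exists_eq_left']
    constructor
    · rintro ⟨h1, h2⟩
      exact ⟨h1, fun i hi => (h2 i hi).1, fun i hi j hj hij =>
        ((h2 i hi).2 j hj).resolve_left hij⟩
    · rintro ⟨h1, h2, h3⟩
      exact ⟨h1, fun i hi => ⟨h2 i hi, fun j hj => or_iff_not_imp_left.2 (h3 i hi j hj)⟩⟩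

theorem inNPP_clique : InNPP CliqueP := by
  refine inNPP_of (β := List ℕ) poly_ver
    (Polynomial.X * (Polynomial.C 4 * Polynomial.X + Polynomial.C 2) + Polynomial.C 1) fun y => ?_
  rw [cliqueP_iff]
  constructor
  · rintro ⟨n, hf, u, hu, hadj⟩
    refine ⟨(List.range y.2.length).map u, ?_, ?_⟩
    · have hn : n ≤ y.1.length := by
        rw [findn_some hf]; exact Nat.le_mul_self n
      have h1 := sz_le_length_mul ((List.range y.2.length).map u) (4 * sz y + 1) (by
        intro a ha
        obtain ⟨i, hi, rfl⟩ := List.mem_map.1 ha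
        have h2 := hu i (List.mem_range.1 hi)
        have h3 := sz_nat_le (u i)
        have h4 : (u i).size ≤ u i := by
          rw [Nat.size_le]; exact Nat.lt_two_pow_self
        have h5 := sz_listBool_ge y.1
        have h6 : sz y = sz y.1 + sz y.2 + 1 := sz_pair _ _
        omega)
      rw [List.length_map, List.length_range] at h1
      have h2 : y.2.length ≤ sz y := by
        have h3 := length_lt_sz y.2
        have h6 : sz y = sz y.1 + sz y.2 + 1 := sz_pair _ _
        omega
      simp only [Polynomial.eval_add, Polynomial.eval_mul, Polynomial.eval_C, Polynomial.eval_X]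
      refine h1.trans ?_
      have h3 : y.2.length * (4 * sz y + 1 + 1) ≤ sz y * (4 * sz y + 2) :=
        Nat.mul_le_mul h2 (by omega)
      omega
    · have e : ∀ i < y.2.length, ((List.range y.2.length).map u).getD i 0 = u i := by
        intro i hi
        rw [List.getD_eq_getElem?_getD, List.getElem?_map, List.getElem?_range hi]
        rfl
      rw [ver_iff]
      refine ⟨n, hf, by simp, ?_, ?_⟩
      · intro i hi
        rw [List.length_map, List.length_range] at hi
        rw [e i hi]; exact hu i hi
      · intro i hi j hj hij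
        rw [List.length_map, List.length_range] at hi hj
        rw [e i hi, e j hj]; exact hadj i hi j hj hij
  · rintro ⟨w, _, hw⟩
    rw [ver_iff] at hw
    obtain ⟨n, hf, hl, h1, h2⟩ := hw
    refine ⟨n, hf, fun i => w.getD i 0, ?_, ?_⟩
    · intro i hi; exact h1 i (by omega)
    · intro i hi j hj hij; exact h2 i (by omega) j (by omega) hij

/-! ## The parameter of the instances -/

theorem foldr_max_le {l : List ℕ} {b : ℕ} (h : ∀ a ∈ l, a ≤ b) : l.foldr max 0 ≤ b := by
  induction l with
  | nil => exact Nat.zero_le _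
  | cons a l ih =>
    rw [List.foldr_cons]
    exact max_le (h a (by simp)) (ih fun x hx => h x (by simp [hx]))

theorem le_foldr_max {l : List ℕ} {a : ℕ} (h : a ∈ l) : a ≤ l.foldr max 0 := by
  induction l with
  | nil => simp at h
  | cons b l ih =>
    rw [List.foldr_cons]
    rcases List.mem_cons.1 h with h | h
    · subst h; exact le_max_left _ _
    · exact (ih h).trans (le_max_right _ _)

theorem keys_nil : keys [] = [] := by
  unfold keys
  simp

theorem key_mem {φ : List Cl} (h : φ ≠ []) : ((0, mm φ) : Ky) ∈ keys φ := by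
  rw [mem_keys]
  left
  refine ⟨rfl, ?_⟩
  have h1 : 0 < φ.length := List.length_pos_iff.2 h
  have h2 : 0 < mm φ := by unfold mm; omega
  have h3 : 2 * mm φ * 1 ≤ 2 * mm φ * φ.length := Nat.mul_le_mul_left _ h1
  simp only
  omega

theorem len_mm {m : ℕ} (h : 0 < m) : len m ((0, m) : Ky) = 13 := by
  unfold len Ev
  have h1 : m % (2 * m) = m := Nat.mod_eq_of_lt (by omega)
  simp [h1]

theorem pmax_inst (φ : List Cl) : pmax (inst φ) = if φ.length = 0 then 0 else 13 := by
  unfold pmax inst
  by_cases h : φ = []
  · subst h; simp [keys_nil]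
  · have h0 : φ.length ≠ 0 := fun h' => h (List.length_eq_zero_iff.1 h')
    rw [if_neg h0, List.map_map]
    refine le_antisymm (foldr_max_le ?_) ?_
    · intro a ha
      obtain ⟨x, _, rfl⟩ := List.mem_map.1 ha
      exact len_le _ x
    · have h1 := len_mm (m := mm φ) (by unfold mm; omega)
      rw [← h1]
      exact le_foldr_max (List.mem_map.2 ⟨_, key_mem h, rfl⟩)

theorem wpmax_instW (φ : List Cl) : wpmax (instW φ) = if φ.length = 0 then 0 else 13 := by
  unfold wpmax instW
  by_cases h : φ = []
  · subst h; simp [keys_nil]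
  · have h0 : φ.length ≠ 0 := fun h' => h (List.length_eq_zero_iff.1 h')
    rw [if_neg h0, List.map_map]
    refine le_antisymm (foldr_max_le ?_) ?_
    · intro a ha
      obtain ⟨x, _, rfl⟩ := List.mem_map.1 ha
      exact len_le _ x
    · have h1 := len_mm (m := mm φ) (by unfold mm; omega)
      rw [← h1]
      exact le_foldr_max (List.mem_map.2 ⟨_, key_mem h, rfl⟩)

theorem late1_inst (φ : List Cl) : SAT3 φ ↔ Late1 (inst φ) := by
  rw [inst_correct (le_refl 13) φ]
  unfold LateJobs Late1
  refine and_congr_left fun _ => ⟨fun h j hj => (h j hj).1, fun h j hj => ⟨h j hj, ?_⟩⟩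
  obtain ⟨x, _, rfl⟩ := List.mem_map.1 hj
  exact len_le _ x

theorem wlate1_inst (φ : List Cl) : SAT3 φ ↔ WLate1 (instW φ) := by
  rw [instW_correct (le_refl 13) φ]
  unfold WeightedLateJobs WLate1
  refine and_congr_left fun _ => ⟨fun h j hj => ⟨(h j hj).1, ?_⟩, fun h j hj => ⟨(h j hj).1, ?_⟩⟩
  · obtain ⟨x, _, rfl⟩ := List.mem_map.1 hj
    exact le_rfl
  · obtain ⟨x, _, rfl⟩ := List.mem_map.1 hj
    exact len_le _ x

/-! ## The reductions -/

/-- The parameterized instance belonging to a formula, with the parameter in unary. -/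
noncomputable def outP (φ : List Cl) : List Bool × List Unit :=
  (bits (inst φ), if φ.length = 0 then [] else List.replicate 13 ())

/-- The weighted parameterized instance belonging to a formula. -/
noncomputable def outW (φ : List Cl) : List Bool × List Unit :=
  (bits (instW φ), if φ.length = 0 then [] else List.replicate 13 ())

theorem poly_outP : Poly outP := by
  unfold outP
  exact Poly.pair (poly_bits inst_poly) (Poly.ite (p := fun φ : List Cl => φ.length = 0)
    (by fun_prop) (NPC.Poly.const _) (NPC.Poly.const _))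

theorem poly_outW : Poly outW := by
  unfold outW
  exact Poly.pair (poly_bits instW_poly) (Poly.ite (p := fun φ : List Cl => φ.length = 0)
    (by fun_prop) (NPC.Poly.const _) (NPC.Poly.const _))

/-- A problem given by an instance and a parameter. -/
def para {α : Type} [TEnc α] (P : α → Prop) (κ : α → ℕ) : PProblem :=
  {y | ∃ I, y.1 = bits I ∧ y.2 = κ I ∧ P I}

theorem mem_para {α : Type} [TEnc α] {P : α → Prop} {κ : α → ℕ} (I : α) :
    (bits I, κ I) ∈ para P κ ↔ P I := by
  constructor
  · rintro ⟨J, hJ, _, h⟩
    have : I = J := bits_injective hJ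
    rw [this]; exact h
  · intro h
    exact ⟨I, rfl, rfl, h⟩

theorem outP_mem (φ : List Cl) : ((outP φ).1, (outP φ).2.length) ∈ pLate ↔ SAT3 φ := by
  rw [late1_inst]
  have : ((outP φ).1, (outP φ).2.length) = (bits (inst φ), pmax (inst φ)) := by
    rw [pmax_inst]
    unfold outP
    split_ifs <;> simp
  rw [this]
  exact mem_para (inst φ)

theorem outW_mem (φ : List Cl) : ((outW φ).1, (outW φ).2.length) ∈ pWLate ↔ SAT3 φ := by
  rw [wlate1_inst]
  have : ((outW φ).1, (outW φ).2.length) = (bits (instW φ), wpmax (instW φ)) := by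
    rw [wpmax_instW]
    unfold outW
    split_ifs <;> simp
  rw [this]
  exact mem_para (instW φ)

theorem out_length_P (φ : List Cl) : (outP φ).2.length ≤ 13 := by
  unfold outP
  split_ifs <;> simp

theorem out_length_W (φ : List Cl) : (outW φ).2.length ≤ 13 := by
  unfold outW
  split_ifs <;> simp

/-- **The general step.** -/
theorem w1Hard_general {L : PProblem} {o : List Cl → List Bool × List Unit} (ho : Poly o)
    (hlen : ∀ φ, (o φ).2.length ≤ 13) (hmem : ∀ φ, ((o φ).1, (o φ).2.length) ∈ L ↔ SAT3 φ) :
    W1Hard L := by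
  obtain ⟨f, hf, hfL⟩ := hardI_SAT3 _ inNPP_clique
  have hid : PC pcode (fun x : List Bool => x) pcode := by
    obtain ⟨c, p, h⟩ := (PC.id : PC (fun x : List Bool => x) (fun x : List Bool => x) fun a => a)
    exact ⟨c, p, fun y => h (pcode y)⟩
  have h2 : PC pcode (bits : List Bool × List Unit → List Bool) fun y => o (f (pcode y)) :=
    PC.comp ho (PC.comp hf hid)
  have h3 : PC pcode pcode fun y => ((o (f (pcode y))).1, (o (f (pcode y))).2.length) := by
    obtain ⟨c, p, h⟩ := h2
    refine ⟨c, p, fun y => ?_⟩
    have h4 := h y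
    have e : bits (o (f (pcode y))) =
        pcode ((o (f (pcode y))).1, (o (f (pcode y))).2.length) := by
      unfold pcode
      simp only
      congr 1
      refine Prod.ext rfl ?_
      simp only
      exact (List.eq_replicate_of_mem fun _ _ => rfl)
    rw [← e]; exact h4
  refine w1Hard_of h3 (g' := fun _ => 13) (Computable.const 13) monotone_const
    (fun x k => hlen _) fun x k => ?_
  rw [hmem, ← hfL]
  rw [show pcode (x, k) = bits ((x, List.replicate k ()) : List Bool × List Unit) from rfl]
  constructor
  · intro h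
    refine ⟨_, rfl, ?_⟩
    unfold CliqueP
    simpa using h
  · rintro ⟨z, hz, h⟩
    rw [bits_injective hz] at h
    unfold CliqueP at h
    simpa using h

/-- Powers with bounded exponents. -/
theorem pow_bound (f : ℕ → ℕ) {k : ℕ} (hk : k ≤ 13) (a b : ℕ) (hab : a ≤ b) :
    f k * (a + 1) ^ f k ≤
      (∑ i ∈ Finset.range 14, f i) * (b + 1) ^ (∑ i ∈ Finset.range 14, f i) := by
  have h1 : f k ≤ ∑ i ∈ Finset.range 14, f i :=
    Finset.single_le_sum (f := f) (fun _ _ => Nat.zero_le _) (Finset.mem_range.2 (by omega))
  exact Nat.mul_le_mul h1 ((Nat.pow_le_pow_left (by omega) _).trans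
    (Nat.pow_le_pow_right (by omega) h1))

/-- **Membership in `XP` implies `P = NP`.** -/
theorem xp_general {L : PProblem} {o : List Cl → List Bool × List Unit} (ho : Poly o)
    (hlen : ∀ φ, (o φ).2.length ≤ 13) (hmem : ∀ φ, ((o φ).1, (o φ).2.length) ∈ L ↔ SAT3 φ)
    (hL : InXP L) : ∀ L' : Set (List Bool), InNP L' → InP L' := by
  classical
  intro L' hL'
  obtain ⟨f, hf, hfL⟩ := hardI_SAT3 _ hL'
  obtain ⟨M, g, _, hM⟩ := hL
  obtain ⟨prog, E, hE⟩ := sim M
  have h2 : PC (fun x : List Bool => x) (bits : List Bool × List Unit → List Bool)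
      fun x => o (f x) := PC.comp ho hf
  obtain ⟨c, p, hc⟩ := h2
  let F := ∑ i ∈ Finset.range 14, g i
  let V : List Bool → List Bool := fun x => [decide (((o (f x)).1, (o (f x)).2.length) ∈ L)]
  have hV : PC (fun x : List Bool => x) (fun x : List Bool => x) V := by
    refine ⟨Cmd.seq c prog, p + Polynomial.C E * ((Polynomial.X + p) +
      Polynomial.C F * (Polynomial.X + p + 1) ^ F + 1), fun x => ?_⟩
    have h3 := hc x
    have e : bits (o (f x)) = pcode ((o (f x)).1, (o (f x)).2.length) := by
      unfold pcode
      simp only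
      congr 1
      refine Prod.ext rfl ?_
      simp only
      exact (List.eq_replicate_of_mem fun _ _ => rfl)
    rw [e] at h3
    have hl : (pcode ((o (f x)).1, (o (f x)).2.length)).length ≤ x.length + p.eval x.length := by
      obtain ⟨t, ht, hr⟩ := h3
      have ht' : t ≤ p.eval x.length := ht
      have := hr.length_le 0
      simp only [inp, Function.update_self] at this
      omega
    have h5 : (o (f x)).1.length ≤ x.length + p.eval x.length := by
      refine le_trans ?_ hl
      unfold pcode
      rw [bits_length, sz_pair]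
      have := sz_listBool_ge (o (f x)).1
      simp only
      omega
    have h4 := hE _ _ _ (hM (o (f x)).1 (o (f x)).2.length)
    refine (h3.seq h4).mono ?_
    have h6 := pow_bound g (hlen (f x)) _ _ h5
    simp only [Polynomial.eval_add, Polynomial.eval_mul, Polynomial.eval_C, Polynomial.eval_X,
      Polynomial.eval_pow, Polynomial.eval_one]
    refine Nat.add_le_add_left (Nat.mul_le_mul_left _ ?_) _
    refine Nat.add_le_add_right (Nat.add_le_add hl h6) _
  refine ⟨V, PC.toPolyTime hV, fun x => ?_⟩
  rw [hfL x, ← hmem (f x)]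
  simp [V]

theorem w1Hard_late : W1Hard pLate := w1Hard_general poly_outP out_length_P outP_mem

theorem w1Hard_wlate : W1Hard pWLate := w1Hard_general poly_outW out_length_W outW_mem

theorem xp_late (h : InXP pLate) : ∀ L : Set (List Bool), InNP L → InP L :=
  xp_general poly_outP out_length_P outP_mem h

theorem xp_wlate (h : InXP pWLate) : ∀ L : Set (List Bool), InNP L → InP L :=
  xp_general poly_outW out_length_W outW_mem h

end Pool.Agent.H741R2.LW
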