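import Mathlib

/-!
# A simple lower bound for the number of primes
-/

namespace Pool.Agent.H741R2.PW

open Finset

theorem centralBinom_le (n : ℕ) (hn : 0 < n) :
    Nat.centralBinom n ≤ (2 * n) ^ #{p ∈ range (2 * n + 1) | p.Prime} := by
  conv_lhs => rw [← Nat.prod_pow_factorization_centralBinom n]
  have h1 : ∏ p ∈ range (2 * n + 1), p ^ (Nat.centralBinom n).factorization p =
      ∏ p ∈ range (2 * n + 1) with p.Prime, p ^ (Nat.centralBinom n).factorization p := by
    rw [prod_filter]
    refine prod_congr rfl fun p _ => ?_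
    split_ifs with h
    · rfl
    · rw [Nat.factorization_eq_zero_of_not_prime _ h, pow_zero]
  rw [h1]
  refine (prod_le_pow_card _ _ (2 * n) fun p _ => ?_)
  exact Nat.pow_factorization_choose_le (by omega)

theorem two_mul_sq_lt (N : ℕ) (hN : 1 ≤ N) : 2 * (N * N) < 4 ^ N := by
  induction N, hN using Nat.le_induction with
  | base => norm_num
  | succ N hN ih =>
    rw [pow_succ]
    nlinarith

theorem card_primes_ge (N : ℕ) : N ≤ #{p ∈ range (2 * (N * N) + 1) | p.Prime} := by
  rcases Nat.eq_zero_or_pos N with rfl | hN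
  · simp
  by_contra hlt
  have hN2 : 0 < N * N := Nat.mul_pos hN hN
  have h1 := Nat.four_pow_le_two_mul_self_mul_centralBinom (N * N) hN2
  have h2 := centralBinom_le (N * N) hN2
  have h3 : 2 * (N * N) * Nat.centralBinom (N * N) ≤ (2 * (N * N)) ^ N := by
    calc 2 * (N * N) * Nat.centralBinom (N * N)
        ≤ 2 * (N * N) * (2 * (N * N)) ^ #{p ∈ range (2 * (N * N) + 1) | p.Prime} :=
          Nat.mul_le_mul_left _ h2
      _ = (2 * (N * N)) ^ (#{p ∈ range (2 * (N * N) + 1) | p.Prime} + 1) := by
          rw [pow_succ]; ring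
      _ ≤ (2 * (N * N)) ^ N := Nat.pow_le_pow_right (by omega) (by omega)
  have h4 : (2 * (N * N)) ^ N < (4 ^ N) ^ N := Nat.pow_lt_pow_left (two_mul_sq_lt N hN) (by omega)
  rw [← pow_mul] at h4
  omega

/-- There are at least `k` primes in `(K, 2 (k + K + 1)²]`. -/
theorem card_primes_gt (k K : ℕ) :
    k ≤ #{p ∈ range (2 * ((k + K + 1) * (k + K + 1)) + 1) | K < p ∧ p.Prime} := by
  have h1 := card_primes_ge (k + K + 1)
  set R := range (2 * ((k + K + 1) * (k + K + 1)) + 1)
  have h2 : #{p ∈ R | p.Prime} ≤ #{p ∈ R | K < p ∧ p.Prime} + #(range (K + 1)) := by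
    refine (card_le_card ?_).trans (card_union_le _ _)
    intro p hp
    rw [mem_filter] at hp
    rw [mem_union]
    by_cases h : K < p
    · exact Or.inl (mem_filter.2 ⟨hp.1, h, hp.2⟩)
    · exact Or.inr (mem_range.2 (by omega))
  rw [card_range] at h2
  omega

/-- A primality test. -/
def isPr (B p : ℕ) : Bool :=
  decide (2 ≤ p) && (List.range B).all
    (fun d => !(decide (2 ≤ d) && (decide (d < p) && decide (p % d = 0))))

theorem isPr_iff {B p : ℕ} (h : p < B) : isPr B p = true ↔ p.Prime := by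
  unfold isPr
  rw [Bool.and_eq_true, decide_eq_true_eq, List.all_eq_true]
  constructor
  · rintro ⟨h1, h2⟩
    rw [Nat.prime_def_lt]
    refine ⟨h1, fun d hd1 hd2 => ?_⟩
    by_contra hne
    have hd0 : d ≠ 0 := by
      rintro rfl
      have := Nat.eq_zero_of_zero_dvd hd2
      omega
    have := h2 d (List.mem_range.2 (by omega))
    simp only [Bool.not_eq_true', Bool.and_eq_false_imp, decide_eq_true_eq,
      decide_eq_false_iff_not] at this
    exact this (by omega) hd1 (Nat.mod_eq_zero_of_dvd hd2)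
  · intro hp
    refine ⟨hp.two_le, fun d _ => ?_⟩
    simp only [Bool.not_eq_true', Bool.and_eq_false_imp, decide_eq_true_eq,
      decide_eq_false_iff_not]
    intro h1 h2 h3
    have h4 := (Nat.prime_def_lt.1 hp).2 d h2 (Nat.dvd_of_mod_eq_zero h3)
    omega

/-- The primes in `(K, B)`. -/
def primesIn (K B : ℕ) : List ℕ := (List.range B).filter (fun p => decide (K < p) && isPr B p)

theorem mem_primesIn {K B p : ℕ} : p ∈ primesIn K B ↔ p < B ∧ K < p ∧ p.Prime := by
  unfold primesIn
  rw [List.mem_filter, List.mem_range, Bool.and_eq_true, decide_eq_true_eq]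
  constructor
  · rintro ⟨h1, h2, h3⟩
    exact ⟨h1, h2, (isPr_iff h1).1 h3⟩
  · rintro ⟨h1, h2, h3⟩
    exact ⟨h1, h2, (isPr_iff h1).2 h3⟩

theorem primesIn_nodup (K B : ℕ) : (primesIn K B).Nodup := List.nodup_range.filter _

theorem primesIn_length (k K : ℕ) :
    k ≤ (primesIn K (2 * ((k + K + 1) * (k + K + 1)) + 1)).length := by
  refine (card_primes_gt k K).trans ?_
  rw [← List.toFinset_card_of_nodup (primesIn_nodup _ _)]
  refine card_le_card fun p hp => ?_
  rw [mem_filter, mem_range] at hp
  rw [List.mem_toFinset, mem_primesIn]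
  exact hp

end Pool.Agent.H741R2.PW
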